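import Pool.Agent.H20VP.Defs

/-!
# Stabilizers of the nodes, and the number of the characters which are trivial on one of them
-/

set_option autoImplicit false

namespace Pool.Agent.H20VP

open Finset

section

variable {E : Type} [Fintype E] {r : ℕ}

/-- the pairing on `E → F_2 ^ r` -/
def pair (ψ γ : E → Ix r) : ZMod 2 := ∑ e, ∑ a, ψ e a * γ e a

theorem pair_add_right (ψ γ γ' : E → Ix r) : pair ψ (γ + γ') = pair ψ γ + pair ψ γ' := by
  simp only [pair, Pi.add_apply, mul_add, Finset.sum_add_distrib]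

theorem pair_add_left (ψ ψ' γ : E → Ix r) : pair (ψ + ψ') γ = pair ψ γ + pair ψ' γ := by
  simp only [pair, Pi.add_apply, add_mul, Finset.sum_add_distrib]

/-- the functional given by `ψ` -/
def func (ψ : E → Ix r) : Module.Dual (ZMod 2) (E → Ix r) where
  toFun γ := pair ψ γ
  map_add' := pair_add_right ψ
  map_smul' c γ := by
    simp only [pair, Pi.smul_apply, smul_eq_mul, RingHom.id_apply, Finset.mul_sum]
    refine Finset.sum_congr rfl fun e _ => Finset.sum_congr rfl fun a _ => ?_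
    ring

theorem func_injective : Function.Injective (func : (E → Ix r) → Module.Dual (ZMod 2) (E → Ix r)) := by
  classical
  intro ψ ψ' h
  funext e a
  have h1 := congrArg (fun F : Module.Dual (ZMod 2) (E → Ix r) => F (Pi.single e (Pi.single a 1))) h
  simp only [func, LinearMap.coe_mk, AddHom.coe_mk] at h1
  have h2 : ∀ χ : E → Ix r, pair χ (Pi.single e (Pi.single a 1)) = χ e a := by
    intro χ
    unfold pair
    rw [Finset.sum_eq_single e, Finset.sum_eq_single a]
    · simp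
    · intro b _ hb
      simp [hb]
    · simp
    · intro e' _ he'
      simp [he']
    · simp
  rw [h2, h2] at h1
  exact h1

theorem perp_card [DecidableEq E] (H : Submodule (ZMod 2) (E → Ix r)) [DecidablePred (· ∈ H)]
    [DecidablePred fun ψ : E → Ix r => ∀ γ ∈ H, pair ψ γ = 0] :
    (univ.filter fun ψ : E → Ix r => ∀ γ ∈ H, pair ψ γ = 0).card * (univ.filter fun γ => γ ∈ H).card ≤
      Fintype.card (E → Ix r) := by
  classical
  have hfin := Subspace.finrank_add_finrank_dualAnnihilator_eq (K := ZMod 2) (V := E → Ix r) H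
  have hc2 : Fintype.card (ZMod 2) = 2 := ZMod.card 2
  have hG : Fintype.card (E → Ix r) = 2 ^ Module.finrank (ZMod 2) (E → Ix r) := by
    rw [Module.card_eq_pow_finrank (K := ZMod 2) (V := E → Ix r), hc2]
  have hH : (univ.filter fun γ => γ ∈ H).card = 2 ^ Module.finrank (ZMod 2) H := by
    have h1 : Fintype.card H = 2 ^ Module.finrank (ZMod 2) H := by
      rw [Module.card_eq_pow_finrank (K := ZMod 2) (V := H), hc2]
    rw [← h1, ← Fintype.card_subtype]
  have hfd : Finite H.dualAnnihilator := Module.finite_of_finite (ZMod 2)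
  letI : Fintype (H.dualAnnihilator) := Fintype.ofFinite _
  have hA : Fintype.card H.dualAnnihilator = 2 ^ Module.finrank (ZMod 2) H.dualAnnihilator := by
    rw [Module.card_eq_pow_finrank (K := ZMod 2) (V := H.dualAnnihilator), hc2]
  have hP : (univ.filter fun ψ : E → Ix r => ∀ γ ∈ H, pair ψ γ = 0).card ≤ Fintype.card H.dualAnnihilator := by
    rw [← Fintype.card_subtype]
    refine Fintype.card_le_of_injective (fun ψ => ⟨func ψ.1, ?_⟩) ?_
    · rw [Submodule.mem_dualAnnihilator]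
      intro γ hγ
      exact ψ.2 γ hγ
    · intro ψ ψ' h
      have := congrArg Subtype.val h
      exact Subtype.ext (func_injective this)
  calc _ ≤ 2 ^ Module.finrank (ZMod 2) H.dualAnnihilator * 2 ^ Module.finrank (ZMod 2) H := by
        rw [hH, ← hA]
        exact Nat.mul_le_mul_right _ hP
    _ = _ := by rw [hG, ← pow_add, ← hfin, add_comm]

variable {N : Type} [Fintype N]

/-- the number of characters which are trivial on the stabilizer of a node -/
theorem count_perp [DecidableEq E] (R : (E → Ix r) → Equiv.Perm N → Prop) (h1 : ∀ γ, ∃ σ, R γ σ)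
    (hmul : ∀ γ γ' σ σ', R γ σ → R γ' σ' → R (γ + γ') (σ * σ'))
    (hinv : ∀ γ σ, R γ σ → R γ σ⁻¹) (𝒳 : Finset (E → Ix r))
    (h𝒳 : ∀ ψ ∈ 𝒳, ∃ c, ∀ γ, (∃ σ, R γ σ ∧ σ c = c) → pair ψ γ = 0) : 𝒳.card ≤ Fintype.card N := by
  classical
  have hneg : ∀ γ : E → Ix r, γ + γ = 0 := by
    intro γ; funext e a; exact CharTwo.add_self_eq_zero _
  have h10 : R 0 1 := by
    obtain ⟨σ, hσ⟩ := h1 0
    have := hmul 0 0 σ σ⁻¹ hσ (hinv _ _ hσ)
    rwa [add_zero, mul_inv_cancel] at this
  let H : N → Submodule (ZMod 2) (E → Ix r) := fun c =>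
    { carrier := {γ | ∃ σ, R γ σ ∧ σ c = c}
      add_mem' := by
        rintro γ γ' ⟨σ, hσ, hc⟩ ⟨σ', hσ', hc'⟩
        exact ⟨σ * σ', hmul _ _ _ _ hσ hσ', by rw [Equiv.Perm.mul_apply, hc', hc]⟩
      zero_mem' := ⟨1, h10, rfl⟩
      smul_mem' := by
        rintro b γ ⟨σ, hσ, hc⟩
        have hb : b = 0 ∨ b = 1 := by revert b; decide
        rcases hb with rfl | rfl
        · rw [zero_smul]; exact ⟨1, h10, rfl⟩
        · rw [one_smul]; exact ⟨σ, hσ, hc⟩ }
  have hHmem : ∀ c γ, γ ∈ H c ↔ ∃ σ, R γ σ ∧ σ c = c := fun c γ => Iff.rfl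
  let O : N → Finset N := fun c => univ.filter fun d => ∃ γ σ, R γ σ ∧ σ c = d
  have hOmem : ∀ c d, d ∈ O c ↔ ∃ γ σ, R γ σ ∧ σ c = d := fun c d => by
    simp [O]
  have hOself : ∀ c, c ∈ O c := fun c => (hOmem c c).2 ⟨0, 1, h10, rfl⟩
  have hOtrans : ∀ c d e, d ∈ O c → e ∈ O d → e ∈ O c := by
    intro c d e hd he
    obtain ⟨γ, σ, hσ, rfl⟩ := (hOmem c d).1 hd
    obtain ⟨γ', σ', hσ', rfl⟩ := (hOmem _ e).1 he
    exact (hOmem _ _).2 ⟨γ' + γ, σ' * σ, hmul _ _ _ _ hσ' hσ, rfl⟩
  have hOsymm : ∀ c d, d ∈ O c → c ∈ O d := by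
    intro c d hd
    obtain ⟨γ, σ, hσ, rfl⟩ := (hOmem c d).1 hd
    exact (hOmem _ _).2 ⟨γ, σ⁻¹, hinv _ _ hσ, by simp⟩
  have hOeq : ∀ c d, d ∈ O c → O d = O c := by
    intro c d hd
    ext e
    exact ⟨fun he => hOtrans c d e hd he, fun he => hOtrans d c e (hOsymm c d hd) he⟩
  have hHle : ∀ c d, d ∈ O c → ∀ γ, γ ∈ H d → γ ∈ H c := by
    intro c d hd γ hγ
    obtain ⟨δ, σ, hσ, rfl⟩ := (hOmem c d).1 hd
    obtain ⟨τ, hτ, hfix⟩ := (hHmem _ _).1 hγ
    refine (hHmem _ _).2 ⟨σ⁻¹ * (τ * σ), ?_, ?_⟩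
    · have := hmul _ _ _ _ (hinv _ _ hσ) (hmul _ _ _ _ hτ hσ)
      have h2 : δ + (γ + δ) = γ := by
        rw [add_comm γ δ, ← add_assoc, hneg, zero_add]
      rwa [h2] at this
    · rw [Equiv.Perm.mul_apply, Equiv.Perm.mul_apply, hfix]; simp
  -- the orbits are large
  have horb : ∀ c, Fintype.card (E → Ix r) ≤ (univ.filter fun γ => γ ∈ H c).card * (O c).card := by
    intro c
    choose s hs using h1
    have hmaps : ∀ γ ∈ (univ : Finset (E → Ix r)), s γ c ∈ O c := fun γ _ => (hOmem _ _).2 ⟨γ, s γ, hs γ, rfl⟩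
    have := Finset.card_le_mul_card_image_of_maps_to hmaps (univ.filter fun γ => γ ∈ H c).card ?_
    · rwa [Finset.card_univ] at this
    · intro d _
      by_cases hne : (univ.filter fun γ => s γ c = d).Nonempty
      · obtain ⟨γ0, hγ0⟩ := hne
        rw [Finset.mem_filter] at hγ0
        refine Finset.card_le_card_of_injOn (fun γ => γ0 + γ) ?_ ?_
        · intro γ hγ
          have hγ' : s γ c = d := (Finset.mem_filter.1 (Finset.mem_coe.1 hγ)).2
          refine Finset.mem_coe.2 (Finset.mem_filter.2 ⟨Finset.mem_univ _, (hHmem _ _).2 ⟨(s γ0)⁻¹ * s γ, ?_, ?_⟩⟩)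
          · exact hmul _ _ _ _ (hinv _ _ (hs γ0)) (hs γ)
          · rw [Equiv.Perm.mul_apply, hγ', ← hγ0.2]; simp
        · intro γ _ γ' _ h
          exact add_left_cancel h
      · rw [Finset.not_nonempty_iff_eq_empty] at hne
        rw [hne]; simp
  -- so there are few characters which are trivial on the stabilizer
  let P : N → Finset (E → Ix r) := fun c => univ.filter fun ψ => ∀ γ ∈ H c, pair ψ γ = 0
  have hPO : ∀ c, (P c).card ≤ (O c).card := by
    intro c
    have h2 := perp_card (H c)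
    have h3 := horb c
    have h4 : 0 < (univ.filter fun γ => γ ∈ H c).card :=
      Finset.card_pos.2 ⟨0, by rw [Finset.mem_filter]; exact ⟨Finset.mem_univ _, (H c).zero_mem⟩⟩
    have h5 : (univ.filter fun γ => γ ∈ H c).card * (P c).card ≤
        (univ.filter fun γ => γ ∈ H c).card * (O c).card := by
      rw [mul_comm]
      exact h2.trans h3
    exact le_of_mul_le_mul_left h5 h4
  -- weights
  have hw : ∀ ψ ∈ 𝒳, (1 : ℚ) ≤ ∑ c, if ψ ∈ P c then (1 : ℚ) / (O c).card else 0 := by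
    intro ψ hψ
    obtain ⟨c, hc⟩ := h𝒳 ψ hψ
    have hsub : ∀ d ∈ O c, ψ ∈ P d := by
      intro d hd
      refine Finset.mem_filter.2 ⟨Finset.mem_univ _, fun γ hγ => ?_⟩
      exact hc γ ((hHmem _ _).1 (hHle c d hd γ hγ))
    have hpos : 0 < (O c).card := Finset.card_pos.2 ⟨c, hOself c⟩
    calc (1 : ℚ) = ∑ d ∈ O c, (1 : ℚ) / (O c).card := by
          rw [Finset.sum_const, nsmul_eq_mul]
          have : ((O c).card : ℚ) ≠ 0 := by exact_mod_cast hpos.ne'
          field_simp
      _ = ∑ d ∈ O c, if ψ ∈ P d then (1 : ℚ) / (O d).card else 0 := by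
          refine Finset.sum_congr rfl fun d hd => ?_
          rw [if_pos (hsub d hd), hOeq c d hd]
      _ ≤ _ := Finset.sum_le_sum_of_subset_of_nonneg (Finset.subset_univ _) fun d _ _ => by
          split_ifs <;> positivity
  have hfinal : (𝒳.card : ℚ) ≤ Fintype.card N := by
    calc (𝒳.card : ℚ) = ∑ ψ ∈ 𝒳, (1 : ℚ) := by simp
      _ ≤ ∑ ψ ∈ 𝒳, ∑ c, if ψ ∈ P c then (1 : ℚ) / (O c).card else 0 := Finset.sum_le_sum hw
      _ = ∑ c, ∑ ψ ∈ 𝒳, if ψ ∈ P c then (1 : ℚ) / (O c).card else 0 := Finset.sum_comm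
      _ ≤ ∑ c : N, (1 : ℚ) := by
          refine Finset.sum_le_sum fun c _ => ?_
          rw [← Finset.sum_filter, Finset.sum_const, nsmul_eq_mul, mul_one_div]
          have hpos : 0 < (O c).card := Finset.card_pos.2 ⟨c, hOself c⟩
          rw [div_le_one (by exact_mod_cast hpos)]
          have h2 : (𝒳.filter fun ψ => ψ ∈ P c).card ≤ (P c).card :=
            Finset.card_le_card fun ψ hψ => (Finset.mem_filter.1 hψ).2
          exact_mod_cast h2.trans (hPO c)
      _ = Fintype.card N := by simp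
  exact_mod_cast hfinal

/-- the choice of the character -/
theorem exists_char [DecidableEq E] (𝒳 : Finset (E → Ix r)) (k : ℕ) (h : 𝒳.card < (2 ^ r - 1) ^ (k + 1)) :
    ∃ c : E → Ix r, (∀ e, c e ≠ 0) ∧ ∀ ψ ∈ 𝒳, (∀ e, ψ e = 0 ∨ ψ e = c e) →
      (univ.filter fun e => ψ e ≠ 0).card ≤ k := by
  classical
  set q1 := 2 ^ r - 1 with hq1
  have hcardI : Fintype.card (Ix r) = 2 ^ r := by
    rw [Fintype.card_fun, ZMod.card, Fintype.card_fin]
  have hq1pos : 0 < q1 := by
    rcases Nat.eq_zero_or_pos q1 with h0 | h0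
    · rw [h0, zero_pow (by omega)] at h; omega
    · exact h0
  have hnz : ((univ : Finset (Ix r)).erase 0).card = q1 := by
    rw [Finset.card_erase_of_mem (Finset.mem_univ _), Finset.card_univ, hcardI]
  set Nz : Finset (E → Ix r) := Fintype.piFinset fun _ => (univ : Finset (Ix r)).erase 0 with hNz
  have hNzcard : Nz.card = q1 ^ Fintype.card E := by
    rw [hNz, Fintype.card_piFinset, Finset.prod_const, hnz, Finset.card_univ]
  let Bd : (E → Ix r) → Finset (E → Ix r) := fun ψ =>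
    Fintype.piFinset fun e => if ψ e = 0 then (univ : Finset (Ix r)).erase 0 else {ψ e}
  have hBd : ∀ ψ : E → Ix r, (Bd ψ).card * q1 ^ (univ.filter fun e => ψ e ≠ 0).card = q1 ^ Fintype.card E := by
    intro ψ
    have h1 : (Bd ψ).card = ∏ e, (if ψ e = 0 then q1 else 1) := by
      rw [Fintype.card_piFinset]
      refine Finset.prod_congr rfl fun e _ => ?_
      split_ifs
      · exact hnz
      · simp
    have h2 : q1 ^ (univ.filter fun e => ψ e ≠ 0).card = ∏ e, (if ψ e = 0 then 1 else q1) := by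
      rw [Finset.prod_ite, Finset.prod_const_one, one_mul, Finset.prod_const]
    rw [h1, h2, ← Finset.prod_mul_distrib]
    have h3 : ∀ e, ((if ψ e = 0 then q1 else 1) * if ψ e = 0 then 1 else q1) = q1 := by
      intro e; split_ifs <;> simp
    rw [Finset.prod_congr rfl fun e _ => h3 e, Finset.prod_const, Finset.card_univ]
  by_contra hcon
  push Not at hcon
  have hcov : Nz ⊆ (𝒳.filter fun ψ => k < (univ.filter fun e => ψ e ≠ 0).card).biUnion Bd := by
    intro c hc
    rw [hNz, Fintype.mem_piFinset] at hc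
    obtain ⟨ψ, hψ, hψc, hk⟩ := hcon c fun e => (Finset.mem_erase.1 (hc e)).1
    rw [Finset.mem_biUnion]
    refine ⟨ψ, Finset.mem_filter.2 ⟨hψ, hk⟩, ?_⟩
    rw [Fintype.mem_piFinset]
    intro e
    by_cases h0 : ψ e = 0
    · rw [if_pos h0]; exact hc e
    · rw [if_neg h0, Finset.mem_singleton]
      rcases hψc e with h1 | h1
      · exact absurd h1 h0
      · exact h1.symm
  have h1 : Nz.card * q1 ^ (k + 1) ≤ 𝒳.card * q1 ^ Fintype.card E := by
    calc Nz.card * q1 ^ (k + 1) ≤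
        (∑ ψ ∈ 𝒳.filter fun ψ => k < (univ.filter fun e => ψ e ≠ 0).card, (Bd ψ).card) * q1 ^ (k + 1) :=
          Nat.mul_le_mul_right _ ((Finset.card_le_card hcov).trans Finset.card_biUnion_le)
      _ = ∑ ψ ∈ 𝒳.filter fun ψ => k < (univ.filter fun e => ψ e ≠ 0).card, (Bd ψ).card * q1 ^ (k + 1) := by
          rw [Finset.sum_mul]
      _ ≤ ∑ ψ ∈ 𝒳.filter fun ψ => k < (univ.filter fun e => ψ e ≠ 0).card, q1 ^ Fintype.card E := by
          refine Finset.sum_le_sum fun ψ hψ => ?_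
          rw [← hBd ψ]
          exact Nat.mul_le_mul_left _ (Nat.pow_le_pow_right hq1pos (Finset.mem_filter.1 hψ).2)
      _ = (𝒳.filter fun ψ => k < (univ.filter fun e => ψ e ≠ 0).card).card * q1 ^ Fintype.card E := by
          rw [Finset.sum_const, smul_eq_mul]
      _ ≤ _ := Nat.mul_le_mul_right _ (Finset.card_filter_le _ _)
  rw [hNzcard, mul_comm] at h1
  have h2 : 0 < q1 ^ Fintype.card E := by positivity
  have h3 : q1 ^ (k + 1) ≤ 𝒳.card := le_of_mul_le_mul_right h1 h2
  omega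

end

end Pool.Agent.H20VP
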