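import Pool.Agent.H20VP.Val
import Pool.Agent.H20VP.Stab

/-!
# A small invariant weakly skew circuit gives a chain of exponents with small boundaries
-/

set_option autoImplicit false

namespace Pool.Agent.H20VP

open Finset MvPolynomial

/-- the nontrivial character of `F_2` -/
def sgn (K : Type) [Field K] (a : ZMod 2) : K := if a = 0 then 1 else -1

section

variable {K : Type} [Field K]

theorem sgn_zero : sgn K 0 = 1 := by simp [sgn]

theorem sgn_add (a b : ZMod 2) : sgn K (a + b) = sgn K a * sgn K b := by
  have ha : a = 0 ∨ a = 1 := by revert a; decide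
  have hb : b = 0 ∨ b = 1 := by revert b; decide
  have h2 : (1 : ZMod 2) + 1 = 0 := by decide
  rcases ha with rfl | rfl <;> rcases hb with rfl | rfl <;> simp [sgn, h2]

theorem sgn_natmul (n : ℕ) (a : ZMod 2) : sgn K ((n : ZMod 2) * a) = sgn K a ^ n := by
  induction n with
  | zero => simp [sgn]
  | succ n ih => rw [Nat.cast_succ, add_mul, one_mul, sgn_add, ih, pow_succ]

theorem eq_zero_of_sgn (h2 : (2 : K) ≠ 0) {a : ZMod 2} (h : sgn K a = 1) : a = 0 := by
  by_contra ha
  unfold sgn at h
  rw [if_neg ha] at h
  apply h2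
  have : (2 : K) = 1 - (-1) := by ring
  rw [this, h]; ring

theorem sgn_ne_zero (a : ZMod 2) : sgn K a ≠ 0 := by
  unfold sgn
  split_ifs
  · exact one_ne_zero
  · exact neg_ne_zero.2 one_ne_zero

end

section

variable {K X V E : Type} [Field K] [Fintype E] [DecidableEq E] {r : ℕ}

/-- the boundary of an exponent -/
noncomputable def bd (inc : V → E → ZMod 2) (m : V →₀ ℕ) (e : E) : ZMod 2 :=
  m.sum fun v n => (n : ZMod 2) * inc v e

omit [Fintype E] [DecidableEq E] in
theorem bd_add (inc : V → E → ZMod 2) (m m' : V →₀ ℕ) (e : E) :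
    bd inc (m + m') e = bd inc m e + bd inc m' e := by
  classical
  unfold bd
  rw [Finsupp.sum_add_index']
  · intro v; simp
  · intro v n n'; push_cast; ring

omit [Fintype E] [DecidableEq E] in
theorem bd_zero (inc : V → E → ZMod 2) (e : E) : bd inc 0 e = 0 := by
  simp [bd]

omit [Fintype E] [DecidableEq E] in
theorem bd_single (inc : V → E → ZMod 2) (v : V) (n : ℕ) (e : E) :
    bd inc (Finsupp.single v n) e = n * inc v e := by
  classical
  unfold bd
  rw [Finsupp.sum_single_index]
  simp

/-- the number of the edges in the boundary -/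
noncomputable def wt (inc : V → E → ZMod 2) (m : V →₀ ℕ) : ℕ := (univ.filter fun e => bd inc m e ≠ 0).card

/-- the character of the boundary -/
noncomputable def psi (inc : V → E → ZMod 2) (c : E → Ix r) (m : V →₀ ℕ) : E → Ix r :=
  fun e => bd inc m e • c e

theorem psi_add (inc : V → E → ZMod 2) (c : E → Ix r) (m m' : V →₀ ℕ) :
    psi inc c (m + m') = psi inc c m + psi inc c m' := by
  funext e
  simp only [psi, Pi.add_apply, bd_add, add_smul]

/-- evaluation at a character -/
noncomputable def rho (vt : X → V) (ev : X → K) : MvPolynomial X K →ₐ[K] MvPolynomial V K :=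
  aeval fun x => C (ev x) * MvPolynomial.X (vt x)

theorem rho_C (vt : X → V) (ev : X → K) (a : K) : rho vt ev (C a) = C a := by
  have h := (rho vt ev).commutes a
  rwa [MvPolynomial.algebraMap_eq, MvPolynomial.algebraMap_eq] at h

variable (vt : X → V) (inc : V → E → ZMod 2) (act : (E → Ix r) → X → X) (ev : (E → Ix r) → X → K)

theorem coeff_scale (θ : V → K) (P : MvPolynomial V K) (m : V →₀ ℕ) :
    coeff m (aeval (fun v => C (θ v) * (MvPolynomial.X v : MvPolynomial V K)) P) =
      (m.prod fun v n => θ v ^ n) * coeff m P := by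
  classical
  induction P using MvPolynomial.induction_on' with
  | monomial u a =>
    rw [aeval_monomial]
    have h1 : (u.prod fun i k => (C (θ i) * (MvPolynomial.X i : MvPolynomial V K)) ^ k) =
        C (u.prod fun v n => θ v ^ n) * u.prod fun i k => (MvPolynomial.X i : MvPolynomial V K) ^ k := by
      simp only [mul_pow]
      rw [Finsupp.prod_mul]
      congr 1
      rw [map_finsuppProd]
      refine Finset.prod_congr rfl fun v _ => ?_
      simp
    rw [h1, MvPolynomial.algebraMap_eq, ← mul_assoc, ← map_mul, ← MvPolynomial.monomial_eq, coeff_monomial,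
      coeff_monomial]
    split_ifs with h
    · subst h; ring
    · simp
  | add p q hp hq => rw [map_add, coeff_add, coeff_add, hp, hq]; ring

theorem coeff_rho_rename (hvt : ∀ γ x, vt (act γ x) = vt x)
    (hev : ∀ c γ x, ev c (act γ x) = sgn K (pair (fun e => inc (vt x) e • c e) γ) * ev c x)
    (c γ : E → Ix r) (p : MvPolynomial X K) (m : V →₀ ℕ) :
    coeff m (rho vt (ev c) (rename (act γ) p)) = sgn K (pair (psi inc c m) γ) * coeff m (rho vt (ev c) p) := by
  classical
  set θ : V → K := fun v => sgn K (pair (fun e => inc v e • c e) γ) with hθ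
  have h1 : (rho vt (ev c)).comp (rename (act γ)) =
      (aeval fun v => C (θ v) * (MvPolynomial.X v : MvPolynomial V K)).comp (rho vt (ev c)) := by
    refine MvPolynomial.algHom_ext fun x => ?_
    simp only [AlgHom.comp_apply, rename_X, rho, aeval_X, map_mul]
    rw [hvt, hev]
    simp only [map_mul]
    rw [show (aeval fun v => C (θ v) * (MvPolynomial.X v : MvPolynomial V K)) (C (ev c x)) = C (ev c x) from by
      rw [← MvPolynomial.algebraMap_eq, AlgHom.commutes]]
    simp only [hθ]
    ring
  have h2 := congrArg (fun F => coeff m (F p)) h1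
  simp only [AlgHom.comp_apply] at h2
  rw [h2, coeff_scale]
  congr 1
  -- the product of the signs
  induction m using Finsupp.induction_linear with
  | zero =>
    have : psi inc c 0 = 0 := by
      funext e; simp [psi, bd_zero]
    rw [this]
    have h3 : pair (0 : E → Ix r) γ = 0 := by simp [pair]
    rw [h3, sgn_zero, Finsupp.prod_zero_index]
  | add m m' hm hm' =>
    rw [Finsupp.prod_add_index' (fun v => pow_zero _) (fun v n n' => pow_add _ _ _), psi_add, pair_add_left, sgn_add]
    rw [hm ?_, hm' ?_]
    · have := congrArg (fun F => coeff m' (F p)) h1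
      simpa only [AlgHom.comp_apply] using this
    · have := congrArg (fun F => coeff m (F p)) h1
      simpa only [AlgHom.comp_apply] using this
  | single v n =>
    rw [Finsupp.prod_single_index (by simp)]
    have h3 : pair (psi inc c (Finsupp.single v n)) γ = (n : ZMod 2) * pair (fun e => inc v e • c e) γ := by
      unfold pair psi
      rw [Finset.mul_sum]
      refine Finset.sum_congr rfl fun e _ => ?_
      rw [Finset.mul_sum]
      refine Finset.sum_congr rfl fun a _ => ?_
      rw [bd_single]
      simp only [Pi.smul_apply, smul_eq_mul]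
      ring
    rw [h3, sgn_natmul]

/-- one vertex is added, the boundaries are small -/
def Step (k : ℕ) (D D' : V →₀ ℕ) : Prop :=
  wt inc D ≤ k ∧ wt inc D' ≤ k ∧ ∃ v, D' = D + Finsupp.single v 1

theorem coeff_list_sum {M : V →₀ ℕ} (l : List (MvPolynomial V K)) (h : coeff M l.sum ≠ 0) :
    ∃ p ∈ l, coeff M p ≠ 0 := by
  induction l with
  | nil => simp at h
  | cons p l ih =>
    rw [List.sum_cons, coeff_add] at h
    by_cases hp : coeff M p = 0
    · rw [hp, zero_add] at h
      obtain ⟨p', hp', h'⟩ := ih h
      exact ⟨p', List.mem_cons_of_mem _ hp', h'⟩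
    · exact ⟨p, List.mem_cons_self, hp⟩

/-- the character: a small invariant circuit has a character such that every exponent whose boundary character is
trivial on the stabilizer of a node has a small boundary -/
theorem exists_good (hadd : ∀ γ γ' x, act (γ + γ') x = act γ (act γ' x)) (hself : ∀ γ x, act γ (act γ x) = x)
    (C₀ : Circuit K X) (hinv : ∀ γ, ∃ σ, C₀.Aut (act γ) σ) (k : ℕ) (hk : C₀.size < (2 ^ r - 1) ^ (k + 1)) :
    ∃ c : E → Ix r, ∀ (n : C₀.N) (D : V →₀ ℕ),
      (∀ γ, (∃ σ, C₀.Aut (act γ) σ ∧ σ n = n) → pair (psi inc c D) γ = 0) → wt inc D ≤ k := by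
  classical
  let := C₀.fin
  set 𝒳 : Finset (E → Ix r) := univ.filter fun ψ => ∃ n : C₀.N, ∀ γ,
    (∃ σ, C₀.Aut (act γ) σ ∧ σ n = n) → pair ψ γ = 0 with h𝒳
  have hcard : 𝒳.card ≤ Fintype.card C₀.N := by
    refine count_perp (fun γ σ => C₀.Aut (act γ) σ) hinv ?_ ?_ 𝒳 ?_
    · intro γ γ' σ σ' h h'
      have h3 : act (γ + γ') = act γ ∘ act γ' := funext (hadd γ γ')
      show C₀.Aut (act (γ + γ')) (σ * σ')
      rw [h3]
      exact aut_mul h h'
    · intro γ σ h
      exact aut_inv h (hself γ)
    · intro ψ hψ
      exact (Finset.mem_filter.1 hψ).2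
  obtain ⟨c, hc0, hc⟩ := exists_char 𝒳 k (lt_of_le_of_lt hcard hk)
  refine ⟨c, fun n D hD => ?_⟩
  have h1 := hc (psi inc c D) (Finset.mem_filter.2 ⟨Finset.mem_univ _, n, hD⟩) ?_
  · refine le_trans (le_of_eq ?_) h1
    unfold wt
    congr 1
    refine Finset.filter_congr fun e _ => ?_
    rw [not_iff_not]
    constructor
    · intro h; show bd inc D e • c e = 0; rw [h, zero_smul]
    · intro h
      by_contra h3
      have h4 : bd inc D e = 1 := by
        generalize bd inc D e = z at h3
        revert z; decide
      have h5 : bd inc D e • c e = 0 := h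
      rw [h4, one_smul] at h5
      exact hc0 e h5
  · intro e
    have h3 : bd inc D e = 0 ∨ bd inc D e = 1 := by
      generalize bd inc D e = z
      revert z; decide
    rcases h3 with h3 | h3
    · left; simp [psi, h3]
    · right; simp [psi, h3]

/-- The main lemma for weakly skew circuits. -/
theorem chain (h2 : (2 : K) ≠ 0) (hvt : ∀ γ x, vt (act γ x) = vt x)
    (hev : ∀ c γ x, ev c (act γ x) = sgn K (pair (fun e => inc (vt x) e • c e) γ) * ev c x)
    (hadd : ∀ γ γ' x, act (γ + γ') x = act γ (act γ' x)) (hself : ∀ γ x, act γ (act γ x) = x)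
    (C₀ : Circuit K X) (hinv : ∀ γ, ∃ σ, C₀.Aut (act γ) σ) (hws : C₀.WeaklySkew)
    (f : MvPolynomial X K) (hf : C₀.Computes f) (M : V →₀ ℕ) (hM : ∀ c, coeff M (rho vt (ev c) f) ≠ 0)
    (k : ℕ) (hk : C₀.size < (2 ^ r - 1) ^ (k + 1)) :
    Relation.ReflTransGen (Step inc k) 0 M := by
  classical
  obtain ⟨c, hgood⟩ := exists_good (V := V) inc act hadd hself C₀ hinv k hk
  obtain ⟨φ, hφ, hout⟩ := hf
  -- nonzero coefficients
  have hcoeff : ∀ (n : C₀.N) (A : V →₀ ℕ), coeff A (rho vt (ev c) (φ n)) ≠ 0 →
      ∀ γ σ, C₀.Aut (act γ) σ → σ n = n → pair (psi inc c A) γ = 0 := by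
    intro n A hA γ σ hσ hfix
    have h3 := value_aut hσ hφ n
    rw [hfix] at h3
    have h4 := coeff_rho_rename vt inc act ev hvt hev c γ (φ n) A
    rw [← h3] at h4
    apply eq_zero_of_sgn h2
    have h5 : (sgn K (pair (psi inc c A) γ) - 1) * coeff A (rho vt (ev c) (φ n)) = 0 := by
      rw [sub_mul, one_mul, ← h4, sub_self]
    rcases mul_eq_zero.1 h5 with h6 | h6
    · exact sub_eq_zero.1 h6
    · exact absurd h6 hA
  let T : C₀.N → (V →₀ ℕ) → Prop := fun n D =>
    ∀ γ σ, C₀.Aut (act γ) σ → σ n = n → pair (psi inc c D) γ = 0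
  have hTgood : ∀ n D, T n D → wt inc D ≤ k := fun n D h => hgood n D fun γ ⟨σ, h3, h4⟩ => h γ σ h3 h4
  have hTadd : ∀ n D D', T n D → T n D' → T n (D + D') := by
    intro n D D' h h' γ σ hσ hfix
    rw [psi_add, pair_add_left, h γ σ hσ hfix, h' γ σ hσ hfix, add_zero]
  have W : ∀ n : C₀.N, ∀ B A : V →₀ ℕ, coeff A (rho vt (ev c) (φ n)) ≠ 0 → (∀ m, C₀.Below m n → T m B) →
      Relation.ReflTransGen (Step inc k) B (B + A) := by
    intro n
    induction n using C₀.wf.induction with
    | _ n ih =>
      intro B A hA hB
      have hTn : T n B := hB n Relation.ReflTransGen.refl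
      have hTA : T n A := fun γ σ hσ hfix => hcoeff n A hA γ σ hσ hfix
      have hφn := hφ n
      cases hg : C₀.gate n with
      | var x =>
        rw [hg] at hφn
        simp only [Gate.value] at hφn
        have hA' := hA
        rw [hφn, rho, aeval_X, coeff_C_mul, coeff_X] at hA'
        have h3 : A = Finsupp.single (vt x) 1 := by
          by_contra hne
          rw [if_neg (fun h => hne h.symm), mul_zero] at hA'
          exact hA' rfl
        refine Relation.ReflTransGen.single ⟨hTgood n B hTn, hTgood n (B + A) (hTadd n B A hTn hTA), vt x, ?_⟩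
        rw [h3]
      | const a =>
        rw [hg] at hφn
        simp only [Gate.value] at hφn
        have hA' := hA
        rw [hφn, rho_C, coeff_C] at hA'
        have h3 : A = 0 := by
          by_contra hne
          rw [if_neg (fun h => hne h.symm)] at hA'
          exact hA' rfl
        rw [h3, add_zero]
      | add l =>
        rw [hg] at hφn
        simp only [Gate.value] at hφn
        have hA' := hA
        rw [hφn, map_list_sum] at hA'
        obtain ⟨p, hp, hpA⟩ := coeff_list_sum _ hA'
        rw [List.map_map, List.mem_map] at hp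
        obtain ⟨m, hm, rfl⟩ := hp
        have hedge : C₀.Edge m n := by
          unfold Circuit.Edge
          rw [hg]
          exact hm
        exact ih m hedge B A hpA fun m' hm' => hB m' (hm'.tail hedge)
      | mul a b =>
        rw [hg] at hφn
        simp only [Gate.value] at hφn
        have hea : C₀.Edge a n := by
          unfold Circuit.Edge; rw [hg]; simp [Gate.preds]
        have heb : C₀.Edge b n := by
          unfold Circuit.Edge; rw [hg]; simp [Gate.preds]
        have hA' := hA
        rw [hφn, map_mul, coeff_mul] at hA'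
        obtain ⟨x, hx, hxne⟩ := Finset.exists_ne_zero_of_sum_ne_zero hA'
        replace hx : x.1 + x.2 = A := Finset.HasAntidiagonal.mem_antidiagonal.1 hx
        have hx1 : coeff x.1 (rho vt (ev c) (φ a)) ≠ 0 := fun h => hxne (by rw [h, zero_mul])
        have hx2 : coeff x.2 (rho vt (ev c) (φ b)) ≠ 0 := fun h => hxne (by rw [h, mul_zero])
        -- the general step
        have key : ∀ (a b : C₀.N) (A1 A2 : V →₀ ℕ), (C₀.gate n = .mul a b ∨ C₀.gate n = .mul b a) →
            C₀.Edge a n → C₀.Edge b n → C₀.Cut b a n →
            coeff A1 (rho vt (ev c) (φ a)) ≠ 0 → coeff A2 (rho vt (ev c) (φ b)) ≠ 0 →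
            Relation.ReflTransGen (Step inc k) B (B + (A1 + A2)) := by
          intro a b A1 A2 hgate hea heb hcut h1 h2
          have h3 := ih a hea B A1 h1 fun m hm => hB m (hm.tail hea)
          have h4 := ih b heb (B + A1) A2 h2 ?_
          · rw [← add_assoc]
            exact h3.trans h4
          · intro m hm
            refine hTadd m B A1 (hB m (hm.tail heb)) ?_
            intro γ σ hσ hfix
            -- `σ` fixes `a`
            have hσi : C₀.Aut (act γ) σ⁻¹ := aut_inv hσ (hself γ)
            obtain ⟨hb, hn⟩ := fix_of_cut hσ hσi hcut heb hm hfix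
            refine hcoeff a A1 h1 γ σ hσ ?_
            have h5 := hσ.2 n
            rw [hn] at h5
            have hab : b ≠ a := hcut.1
            rcases hgate with hgate | hgate
            · rw [hgate] at h5
              simp only [Gate.Image, Gate.mul.injEq] at h5
              rcases h5 with h5 | h5
              · exact h5.1.symm
              · rw [hb] at h5
                exact absurd h5.1.symm hab
            · rw [hgate] at h5
              simp only [Gate.Image, Gate.mul.injEq] at h5
              rcases h5 with h5 | h5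
              · exact h5.2.symm
              · rw [hb] at h5
                exact absurd h5.2.symm hab
        rcases hws n a b hg with hcut | hcut
        · have h5 := key b a x.2 x.1 (Or.inr hg) heb hea hcut hx2 hx1
          rw [add_comm x.2 x.1, hx] at h5
          exact h5
        · have h5 := key a b x.1 x.2 (Or.inl hg) hea heb hcut hx1 hx2
          rw [hx] at h5
          exact h5
  have h3 := W C₀.out 0 M (by rw [hout]; exact hM c) ?_
  · rwa [zero_add] at h3
  · intro m _ γ σ _ _
    have : psi inc c 0 = 0 := by
      funext e; simp [psi, bd_zero]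
    rw [this]
    simp [pair]

end

end Pool.Agent.H20VP
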