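import Mathlib

/-!
# The cutwidth of complete binary trees
-/

set_option autoImplicit false

namespace Pool.Agent.H20VP

/-- `u` belongs to the complete binary tree of height `t` with root `v` -/
def Sub (v t u : ℕ) : Prop := ∃ s ≤ t, u / 2 ^ s = v

theorem Sub.self (v t : ℕ) : Sub v t v := ⟨0, Nat.zero_le _, by simp⟩

theorem Sub.parent {v t u : ℕ} (h : Sub v t u) (hne : u ≠ v) : Sub v t (u / 2) := by
  obtain ⟨s, hs, h⟩ := h
  rcases s with _ | s
  · simp only [pow_zero, Nat.div_one] at h; exact absurd h hne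
  · refine ⟨s, by omega, ?_⟩
    rw [Nat.div_div_eq_div_mul, ← pow_succ']
    exact h

theorem Sub.grandchild {v t i u : ℕ} (hi : i < 4) (h : Sub (4 * v + i) t u) : Sub v (t + 2) u := by
  obtain ⟨s, hs, h⟩ := h
  refine ⟨s + 2, by omega, ?_⟩
  rw [pow_add, ← Nat.div_div_eq_div_mul, h]
  omega

theorem Sub.le {v t u : ℕ} (h : Sub v t u) : v ≤ u := by
  obtain ⟨s, _, h⟩ := h
  rw [← h]
  exact Nat.div_le_self _ _

/-- the subtrees at different vertices of the same level are disjoint -/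
theorem Sub.disj {v t i j u : ℕ} (hv : 1 ≤ v) (hi : i < 4) (hj : j < 4) (h1 : Sub (4 * v + i) t u)
    (h2 : Sub (4 * v + j) t u) : i = j := by
  obtain ⟨s, _, h1⟩ := h1
  obtain ⟨s', _, h2⟩ := h2
  -- compare the exponents
  have key : ∀ (i j s s' : ℕ), i < 4 → j < 4 → u / 2 ^ s = 4 * v + i → u / 2 ^ s' = 4 * v + j → s < s' → False := by
    intro i j s s' hi hj h1 h2 hlt
    have h3 : u / 2 ^ s' = (u / 2 ^ s) / 2 ^ (s' - s) := by
      rw [Nat.div_div_eq_div_mul, ← pow_add]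
      congr 2
      omega
    have h4 : 2 ≤ 2 ^ (s' - s) := by
      calc 2 = 2 ^ 1 := by norm_num
        _ ≤ 2 ^ (s' - s) := Nat.pow_le_pow_right (by norm_num) (by omega)
    have h5 : (u / 2 ^ s) / 2 ^ (s' - s) ≤ (u / 2 ^ s) / 2 := Nat.div_le_div_left h4 (by norm_num)
    rw [← h3, h1, h2] at h5
    omega
  rcases lt_trichotomy s s' with h | h | h
  · exact (key i j s s' hi hj h1 h2 h).elim
  · subst h; omega
  · exact (key j i s' s hj hi h2 h1 h).elim

/-- on the way from `y` to its ancestor `y / 2 ^ s` the value of `P` changes -/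
theorem walk (P : ℕ → Prop) (y s : ℕ) (h : ¬ (P y ↔ P (y / 2 ^ s))) :
    ∃ j < s, ¬ (P (y / 2 ^ j) ↔ P (y / 2 ^ j / 2)) := by
  induction s with
  | zero => simp at h
  | succ s ih =>
    by_cases h1 : P y ↔ P (y / 2 ^ s)
    · refine ⟨s, Nat.lt_succ_self s, ?_⟩
      rw [Nat.div_div_eq_div_mul, ← pow_succ, ← h1]
      exact h
    · obtain ⟨j, hj, hj'⟩ := ih h1
      exact ⟨j, by omega, hj'⟩

/-- Every order of the vertices of the complete binary tree of height `2 m + 1` has a cut with at least `m + 1` edges. -/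
theorem cut (P : ℕ → ℕ → Prop) (hmono : ∀ τ τ' u, τ ≤ τ' → P τ u → P τ' u)
    (hstep : ∀ τ u u', ¬ P τ u → ¬ P τ u' → P (τ + 1) u → P (τ + 1) u' → u = u') (n : ℕ) :
    ∀ m v, 1 ≤ v → (∀ u, Sub v (2 * m + 1) u → ¬ P 0 u) → (∀ u, Sub v (2 * m + 1) u → P n u) →
      ∃ τ ≤ n, ∃ Q : Finset ℕ, m + 1 ≤ Q.card ∧
        ∀ u ∈ Q, Sub v (2 * m + 1) u ∧ u ≠ v ∧ ¬ (P τ u ↔ P τ (u / 2)) := by
  classical
  intro m
  induction m with
  | zero =>
    intro v hv h0 hn
    have hS1 : Sub v (2 * 0 + 1) v := Sub.self _ _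
    have hS2 : Sub v (2 * 0 + 1) (2 * v) := ⟨1, by omega, by omega⟩
    have hex : ∃ τ, P τ v ∨ P τ (2 * v) := ⟨n, Or.inl (hn v hS1)⟩
    have hτ := Nat.find_spec hex
    have hpos : 0 < Nat.find hex := by
      rcases Nat.eq_zero_or_pos (Nat.find hex) with h | h
      · rw [h] at hτ
        rcases hτ with h1 | h1
        · exact absurd h1 (h0 _ hS1)
        · exact absurd h1 (h0 _ hS2)
      · exact h
    have hprev := Nat.find_min hex (m := Nat.find hex - 1) (by omega)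
    push Not at hprev
    have hlen : Nat.find hex ≤ n := Nat.find_min' hex (Or.inl (hn v hS1))
    refine ⟨Nat.find hex, hlen, {2 * v}, by simp, ?_⟩
    intro u hu
    rw [Finset.mem_singleton] at hu
    subst hu
    refine ⟨hS2, by omega, ?_⟩
    have h2 : 2 * v / 2 = v := by omega
    rw [h2]
    intro hiff
    have h3 := hstep (Nat.find hex - 1) v (2 * v) hprev.1 hprev.2
    rw [Nat.sub_add_cancel hpos] at h3
    rcases hτ with h1 | h1
    · have := h3 h1 (hiff.2 h1); omega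
    · have := h3 (hiff.1 h1) h1; omega
  | succ m ih =>
    intro v hv h0 hn
    have hsub : ∀ i < 4, ∀ u, Sub (4 * v + i) (2 * m + 1) u → Sub v (2 * (m + 1) + 1) u := by
      intro i hi u hu
      have := Sub.grandchild hi hu
      rwa [show 2 * m + 1 + 2 = 2 * (m + 1) + 1 by ring] at this
    have hcopy : ∀ i < 4, ∃ τ ≤ n, ∃ Q : Finset ℕ, m + 1 ≤ Q.card ∧
        ∀ u ∈ Q, Sub (4 * v + i) (2 * m + 1) u ∧ u ≠ 4 * v + i ∧ ¬ (P τ u ↔ P τ (u / 2)) := by
      intro i hi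
      exact ih (4 * v + i) (by omega) (fun u hu => h0 u (hsub i hi u hu)) (fun u hu => hn u (hsub i hi u hu))
    -- the main step: three copies in the order of their times
    have main : ∀ a b c : ℕ, a < 4 → b < 4 → c < 4 → a ≠ b → c ≠ b → ∀ τa τb τc : ℕ, τa ≤ τb → τb ≤ τc → τb ≤ n →
        ∀ Qa Qb Qc : Finset ℕ, m + 1 ≤ Qa.card → m + 1 ≤ Qb.card → m + 1 ≤ Qc.card →
        (∀ u ∈ Qa, Sub (4 * v + a) (2 * m + 1) u ∧ u ≠ 4 * v + a ∧ ¬ (P τa u ↔ P τa (u / 2))) →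
        (∀ u ∈ Qb, Sub (4 * v + b) (2 * m + 1) u ∧ u ≠ 4 * v + b ∧ ¬ (P τb u ↔ P τb (u / 2))) →
        (∀ u ∈ Qc, Sub (4 * v + c) (2 * m + 1) u ∧ u ≠ 4 * v + c ∧ ¬ (P τc u ↔ P τc (u / 2))) →
        ∃ τ ≤ n, ∃ Q : Finset ℕ, m + 1 + 1 ≤ Q.card ∧
          ∀ u ∈ Q, Sub v (2 * (m + 1) + 1) u ∧ u ≠ v ∧ ¬ (P τ u ↔ P τ (u / 2)) := by
      intro a b c ha hb hc hab hcb τa τb τc hτab hτbc hτbn Qa Qb Qc hQa hQb hQc hA hB hC
      -- a vertex of the copy `a` which is present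
      obtain ⟨x, hx, hPx⟩ : ∃ x, Sub (4 * v + a) (2 * m + 1) x ∧ P τb x := by
        obtain ⟨u, hu⟩ := Finset.card_pos.1 (by omega : 0 < Qa.card)
        obtain ⟨h1, h2, h3⟩ := hA u hu
        by_cases h4 : P τa u
        · exact ⟨u, h1, hmono _ _ _ hτab h4⟩
        · refine ⟨u / 2, h1.parent h2, hmono _ _ _ hτab ?_⟩
          by_contra h5
          exact h3 ⟨fun h => absurd h h4, fun h => absurd h h5⟩
      -- a vertex of the copy `c` which is not present
      obtain ⟨y, hy, hPy⟩ : ∃ y, Sub (4 * v + c) (2 * m + 1) y ∧ ¬ P τb y := by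
        obtain ⟨u, hu⟩ := Finset.card_pos.1 (by omega : 0 < Qc.card)
        obtain ⟨h1, h2, h3⟩ := hC u hu
        by_cases h4 : P τc u
        · refine ⟨u / 2, h1.parent h2, fun h5 => h3 ⟨fun _ => hmono _ _ _ hτbc h5, fun _ => h4⟩⟩
        · exact ⟨u, h1, fun h5 => h4 (hmono _ _ _ hτbc h5)⟩
      -- an edge outside of the copy `b`
      have hedge : ∀ (d z : ℕ), d < 4 → d ≠ b → Sub (4 * v + d) (2 * m + 1) z → ¬ (P τb z ↔ P τb v) →
          ∃ u, Sub v (2 * (m + 1) + 1) u ∧ u ≠ v ∧ ¬ (P τb u ↔ P τb (u / 2)) ∧ ¬ Sub (4 * v + b) (2 * m + 1) u := by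
        intro d z hd hdb hz hPz
        obtain ⟨s, hs, hzs⟩ := hz
        have hzv : z / 2 ^ (s + 2) = v := by
          rw [pow_add, ← Nat.div_div_eq_div_mul, hzs]; omega
        rw [← hzv] at hPz
        obtain ⟨j, hj, hPj⟩ := walk (P τb) z (s + 2) hPz
        refine ⟨z / 2 ^ j, ⟨s + 2 - j, by omega, ?_⟩, ?_, hPj, ?_⟩
        · rw [Nat.div_div_eq_div_mul, ← pow_add, show j + (s + 2 - j) = s + 2 by omega, hzv]
        · intro h
          -- the values at levels `j < s + 2` are larger than `v`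
          have h1 : z / 2 ^ (s + 2) ≤ (z / 2 ^ j) / 2 := by
            rw [Nat.div_div_eq_div_mul, ← pow_succ]
            exact Nat.div_le_div_left (Nat.pow_le_pow_right (by norm_num) (by omega)) (by positivity)
          rw [hzv, h] at h1
          omega
        · intro h
          rcases Nat.lt_or_ge s j with h1 | h1
          · -- `j = s + 1`
            have h2 : j = s + 1 := by omega
            subst h2
            have h3 := h.le
            rw [pow_succ, ← Nat.div_div_eq_div_mul, hzs] at h3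
            omega
          · refine hdb (Sub.disj hv hd hb (u := z / 2 ^ j) (t := 2 * m + 1) ⟨s - j, by omega, ?_⟩ h)
            rw [Nat.div_div_eq_div_mul, ← pow_add, show j + (s - j) = s by omega, hzs]
      obtain ⟨u, hu1, hu2, hu3, hu4⟩ : ∃ u, Sub v (2 * (m + 1) + 1) u ∧ u ≠ v ∧ ¬ (P τb u ↔ P τb (u / 2)) ∧
          ¬ Sub (4 * v + b) (2 * m + 1) u := by
        by_cases hPv : P τb v
        · exact hedge c y hc hcb hy fun h => hPy (h.2 hPv)
        · exact hedge a x ha hab hx fun h => hPv (h.1 hPx)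
      refine ⟨τb, hτbn, insert u Qb, ?_, ?_⟩
      · rw [Finset.card_insert_of_notMem]
        · omega
        · intro h
          exact hu4 (hB u h).1
      · intro w hw
        rw [Finset.mem_insert] at hw
        rcases hw with rfl | hw
        · exact ⟨hu1, hu2, hu3⟩
        · obtain ⟨h1, h2, h3⟩ := hB w hw
          refine ⟨hsub b hb w h1, ?_, h3⟩
          have := h1.le
          omega
    obtain ⟨τ0, hτ0, Q0, hQ0, hQ0'⟩ := hcopy 0 (by norm_num)
    obtain ⟨τ1, hτ1, Q1, hQ1, hQ1'⟩ := hcopy 1 (by norm_num)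
    obtain ⟨τ2, hτ2, Q2, hQ2, hQ2'⟩ := hcopy 2 (by norm_num)
    rcases le_total τ0 τ1 with h01 | h01 <;> rcases le_total τ1 τ2 with h12 | h12 <;>
      rcases le_total τ0 τ2 with h02 | h02
    · exact main 0 1 2 (by norm_num) (by norm_num) (by norm_num) (by norm_num) (by norm_num) τ0 τ1 τ2 h01 h12 hτ1
        Q0 Q1 Q2 hQ0 hQ1 hQ2 hQ0' hQ1' hQ2'
    · exact main 0 1 2 (by norm_num) (by norm_num) (by norm_num) (by norm_num) (by norm_num) τ0 τ1 τ2 h01 h12 hτ1
        Q0 Q1 Q2 hQ0 hQ1 hQ2 hQ0' hQ1' hQ2'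
    · exact main 0 2 1 (by norm_num) (by norm_num) (by norm_num) (by norm_num) (by norm_num) τ0 τ2 τ1 h02 h12 hτ2
        Q0 Q2 Q1 hQ0 hQ2 hQ1 hQ0' hQ2' hQ1'
    · exact main 2 0 1 (by norm_num) (by norm_num) (by norm_num) (by norm_num) (by norm_num) τ2 τ0 τ1 h02 h01 hτ0
        Q2 Q0 Q1 hQ2 hQ0 hQ1 hQ2' hQ0' hQ1'
    · exact main 1 0 2 (by norm_num) (by norm_num) (by norm_num) (by norm_num) (by norm_num) τ1 τ0 τ2 h01 h02 hτ0
        Q1 Q0 Q2 hQ1 hQ0 hQ2 hQ1' hQ0' hQ2'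
    · exact main 1 2 0 (by norm_num) (by norm_num) (by norm_num) (by norm_num) (by norm_num) τ1 τ2 τ0 h12 h02 hτ2
        Q1 Q2 Q0 hQ1 hQ2 hQ0 hQ1' hQ2' hQ0'
    · exact main 2 1 0 (by norm_num) (by norm_num) (by norm_num) (by norm_num) (by norm_num) τ2 τ1 τ0 h12 h01 hτ1
        Q2 Q1 Q0 hQ2 hQ1 hQ0 hQ2' hQ1' hQ0'
    · exact main 2 1 0 (by norm_num) (by norm_num) (by norm_num) (by norm_num) (by norm_num) τ2 τ1 τ0 h12 h01 hτ1
        Q2 Q1 Q0 hQ2 hQ1 hQ0 hQ2' hQ1' hQ0'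

end Pool.Agent.H20VP
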