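import Mathlib

/-!
# Arithmetic circuits, weakly skew circuits, automorphisms of circuits, tensor networks on binary trees
-/

set_option autoImplicit false

namespace Pool.Agent.H20VP

/-- The possible labels of a node of a circuit whose set of nodes is `N`: an input labelled by a variable `x`, an input
labelled by a constant `c`, an addition gate whose incoming edges start at the nodes in the list `l`, and a multiplication
gate with two incoming edges, starting at the nodes `a` and `b`. -/
inductive Gate (K X N : Type) : Type
  | var (x : X) : Gate K X N
  | const (c : K) : Gate K X N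
  | add (l : List N) : Gate K X N
  | mul (a b : N) : Gate K X N

/-- The list of the tails of the incoming edges. -/
def Gate.preds {K X N : Type} : Gate K X N → List N
  | .var _ => []
  | .const _ => []
  | .add l => l
  | .mul a b => [a, b]

/-- The value at a node whose label is the given one, if `φ` gives the values at its predecessors. -/
noncomputable def Gate.value {K X N : Type} [CommSemiring K] (φ : N → MvPolynomial X K) :
    Gate K X N → MvPolynomial X K
  | .var x => MvPolynomial.X x
  | .const c => MvPolynomial.C c
  | .add l => (l.map φ).sum
  | .mul a b => φ a * φ b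

/-- An arithmetic circuit over `K` with variables from `X`: a finite directed acyclic graph with labelled nodes, the output
is the only node of out-degree `0`. There is an edge `a → b` if `a ∈ (gate b).preds`. -/
structure Circuit (K X : Type) where
  N : Type
  fin : Fintype N
  gate : N → Gate K X N
  out : N
  acyclic : ∀ n, ¬ Relation.TransGen (fun a b => a ∈ (gate b).preds) n n
  sink : ∀ n, (∀ m, n ∉ (gate m).preds) ↔ n = out

namespace Circuit

variable {K X : Type}

/-- There is an edge from `a` to `b`. -/
def Edge (C : Circuit K X) (a b : C.N) : Prop := a ∈ (C.gate b).preds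

/-- The size: the number of nodes. -/
def size (C : Circuit K X) : ℕ := @Fintype.card C.N C.fin

/-- The circuit `C` computes `f`: there are polynomials at the nodes such that the polynomial at each node is the one given
by the label of the node, and the polynomial at the output is `f`. -/
def Computes [CommSemiring K] (C : Circuit K X) (f : MvPolynomial X K) : Prop :=
  ∃ φ : C.N → MvPolynomial X K, (∀ n, φ n = (C.gate n).value φ) ∧ φ C.out = f

/-- `n` belongs to the sub-circuit of `a`: `n = a` or there is a directed path from `n` to `a`. -/
def Below (C : Circuit K X) (n a : C.N) : Prop := Relation.ReflTransGen C.Edge n a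

/-- `g` is a gate with the two incoming edges `a → g` and `b → g`, and deleting the edge `a → g` separates the sub-circuit
of `a` from the rest of the circuit: no other edge connects this sub-circuit with the rest. (An edge which enters the
sub-circuit starts in the sub-circuit. If `a = b` there are two parallel edges.) -/
def Cut (C : Circuit K X) (a b g : C.N) : Prop :=
  a ≠ b ∧ ∀ n m, C.Below n a → ¬ C.Below m a → C.Edge n m → n = a ∧ m = g

/-- The circuit is weakly skew: for every multiplication gate, deleting one of its incoming edges separates the
sub-circuit which feeds this edge from the rest of the circuit. -/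
def WeaklySkew (C : Circuit K X) : Prop := ∀ g a b, C.gate g = .mul a b → C.Cut a b g ∨ C.Cut b a g

/-- Every addition gate has in-degree two (multiplication gates always have). -/
def FanInTwo (C : Circuit K X) : Prop := ∀ g l, C.gate g = .add l → l.length = 2

end Circuit

/-- The label `g'` is the image of the label `g` under the map `π` of the variables and the map `σ` of the nodes. -/
def Gate.Image {K X N : Type} (π : X → X) (σ : N → N) : Gate K X N → Gate K X N → Prop
  | .var x, g' => g' = .var (π x)
  | .const c, g' => g' = .const c
  | .add l, g' => ∃ l', g' = .add l' ∧ l'.Perm (l.map σ)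
  | .mul a b, g' => g' = .mul (σ a) (σ b) ∨ g' = .mul (σ b) (σ a)

/-- The permutation `σ` of the nodes of `C` is an automorphism of `C` which extends the map `π` of the variables. -/
def Circuit.Aut {K X : Type} (C : Circuit K X) (π : X → X) (σ : Equiv.Perm C.N) : Prop :=
  σ C.out = C.out ∧ ∀ n, (C.gate n).Image π σ (C.gate (σ n))

/-- The index set `F_2 ^ r`, with `2 ^ r` elements. -/
abbrev Ix (r : ℕ) : Type := Fin r → ZMod 2

/-- The variables: `(v, i, j, k)` is the variable `x_v(i, j, k)` of the vertex number `v`. -/
abbrev Vr (r : ℕ) : Type := ℕ × Ix r × Ix r × Ix r

/-- The tensor network polynomial of the complete binary tree of height `t` with root `v`: the children of the vertex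
`v` are `2 v` and `2 v + 1`, and
`T_0(v, i) = x_v(i, 0, 0)`, `T_{t+1}(v, i) = ∑_{j, k} x_v(i, j, k) T_t(2 v, j) T_t(2 v + 1, k)`. -/
noncomputable def tree (K : Type) [CommSemiring K] (r : ℕ) : ℕ → ℕ → Ix r → MvPolynomial (Vr r) K
  | 0, v, i => MvPolynomial.X (v, i, 0, 0)
  | t + 1, v, i => ∑ j : Ix r, ∑ k : Ix r,
      MvPolynomial.X (v, i, j, k) * tree K r t (2 * v) j * tree K r t (2 * v + 1) k

/-- The family: the tree has height `h` and root `1`, and the index set has `2 ^ h` elements, where `h = ⌊log₂ n⌋`. -/
noncomputable def fam (K : Type) [CommSemiring K] (n : ℕ) : MvPolynomial (Vr (Nat.log 2 n)) K :=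
  tree K (Nat.log 2 n) (Nat.log 2 n) 1 0

/-- The translation of the indices at the edges by `γ`: the edge from `u` to its parent has the number `u`. -/
def shift {r : ℕ} (γ : ℕ → Ix r) (x : Vr r) : Vr r :=
  (x.1, x.2.1 + γ x.1, x.2.2.1 + γ (2 * x.1), x.2.2.2 + γ (2 * x.1 + 1))

/-- The circuit is invariant under the group of all translations of the indices at the edges of the tree of height `h` (the
edges are the numbers `u` with `2 ≤ u < 2 ^ (h + 1)`): each of them extends to an automorphism of the circuit. -/
def Invariant {K : Type} {r : ℕ} (h : ℕ) (C : Circuit K (Vr r)) : Prop :=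
  ∀ γ : ℕ → Ix r, (∀ u, γ u ≠ 0 → 2 ≤ u ∧ u < 2 ^ (h + 1)) → ∃ σ : Equiv.Perm C.N, C.Aut (shift γ) σ

end Pool.Agent.H20VP
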