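import Pool.Agent.H20VP.Defs

/-!
# The invariant circuit
-/

set_option autoImplicit false

namespace Pool.Agent.H20VP

open Finset MvPolynomial

/-! ### restriction of a labelled graph to a set of nodes -/

section

variable {K X T : Type}

/-- restriction of a label -/
def Gate.restrict {ok : T → Prop} (g : Gate K X T) (h : ∀ s ∈ g.preds, ok s) : Gate K X {t // ok t} :=
  match g, h with
  | .var x, _ => .var x
  | .const c, _ => .const c
  | .add l, h => .add (l.attach.map fun s => ⟨s.1, h s.1 s.2⟩)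
  | .mul a b, h => .mul ⟨a, h a (by simp [Gate.preds])⟩ ⟨b, h b (by simp [Gate.preds])⟩

theorem mem_restrict {ok : T → Prop} (g : Gate K X T) (h : ∀ s ∈ g.preds, ok s) (t : {t // ok t}) :
    t ∈ (g.restrict h).preds ↔ t.1 ∈ g.preds := by
  cases g with
  | var x => simp [Gate.restrict, Gate.preds]
  | const c => simp [Gate.restrict, Gate.preds]
  | add l =>
    simp only [Gate.restrict, Gate.preds, List.mem_map, List.mem_attach, true_and, Subtype.exists]
    constructor
    · rintro ⟨a, ha, h1⟩
      rw [← h1]; exact ha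
    · intro h1
      exact ⟨t.1, h1, rfl⟩
  | mul a b =>
    simp only [Gate.restrict, Gate.preds, List.mem_cons, List.not_mem_nil, or_false]
    rw [Subtype.ext_iff, Subtype.ext_iff]

theorem value_restrict [CommSemiring K] {ok : T → Prop} (φ : T → MvPolynomial X K) (g : Gate K X T)
    (h : ∀ s ∈ g.preds, ok s) : (g.restrict h).value (fun t : {t // ok t} => φ t.1) = g.value φ := by
  cases g with
  | var x => rfl
  | const c => rfl
  | add l =>
    simp only [Gate.restrict, Gate.value, List.map_map]
    congr 1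
    conv_rhs => rw [← List.attach_map_subtype_val l]
    rw [List.map_map]
    rfl
  | mul a b => rfl

theorem image_restrict {ok : T → Prop} (π : X → X) (σ : T → T) (hσ : ∀ t, ok t → ok (σ t))
    (g g' : Gate K X T) (h : ∀ s ∈ g.preds, ok s) (h' : ∀ s ∈ g'.preds, ok s) (hi : g.Image π σ g') :
    (g.restrict h).Image π (fun t : {t // ok t} => ⟨σ t.1, hσ t.1 t.2⟩) (g'.restrict h') := by
  cases g with
  | var x =>
    simp only [Gate.Image] at hi
    subst hi
    simp [Gate.restrict, Gate.Image]
  | const c =>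
    simp only [Gate.Image] at hi
    subst hi
    simp [Gate.restrict, Gate.Image]
  | add l =>
    simp only [Gate.Image] at hi
    obtain ⟨l', rfl, hp⟩ := hi
    simp only [Gate.restrict, Gate.Image]
    refine ⟨_, rfl, ?_⟩
    have hinj : Function.Injective (Subtype.val : {t // ok t} → T) := Subtype.val_injective
    rw [← List.map_perm_map_iff hinj]
    have h1 : List.map Subtype.val (List.map (fun s : {x // x ∈ l'} => (⟨s.1, h' s.1 s.2⟩ : {t // ok t})) l'.attach) =
        l' := by
      rw [List.map_map]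
      conv_rhs => rw [← List.attach_map_subtype_val l']
      rfl
    have h2 : List.map Subtype.val (List.map (fun t : {t // ok t} => (⟨σ t.1, hσ t.1 t.2⟩ : {t // ok t}))
        (List.map (fun s : {x // x ∈ l} => (⟨s.1, h s.1 s.2⟩ : {t // ok t})) l.attach)) = l.map σ := by
      rw [List.map_map, List.map_map]
      conv_rhs => rw [← List.attach_map_subtype_val l]
      rw [List.map_map]
      rfl
    rw [h1, h2]
    exact hp
  | mul a b =>
    simp only [Gate.Image] at hi
    rcases hi with rfl | rfl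
    · left; rfl
    · right; rfl

end

/-! ### the circuit -/

/-- the nodes, without bounds for the parameters -/
inductive Nd (r : ℕ) : Type
  | leaf (v : ℕ) (i : Ix r) : Nd r
  | xv (v : ℕ) (i j k : Ix r) : Nd r
  | pr (v : ℕ) (j k : Ix r) : Nd r
  | sm (v : ℕ) (i : Ix r) (l : ℕ) (z : Ix (r + r)) : Nd r

variable {r : ℕ}

/-- the first half -/
def lft (z : Ix (r + r)) : Ix r := fun a => z (Fin.castAdd r a)
/-- the second half -/
def rgt (z : Ix (r + r)) : Ix r := fun a => z (Fin.natAdd r a)
/-- a pair as one string -/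
def jn (j k : Ix r) : Ix (r + r) := Fin.append j k

theorem lft_jn (j k : Ix r) : lft (jn j k) = j := by
  funext a; exact Fin.append_left j k a

theorem rgt_jn (j k : Ix r) : rgt (jn j k) = k := by
  funext a; exact Fin.append_right j k a

theorem jn_lft_rgt (z : Ix (r + r)) : jn (lft z) (rgt z) = z := by
  funext a
  refine Fin.addCases (fun b => ?_) (fun b => ?_) a
  · exact Fin.append_left (lft z) (rgt z) b
  · exact Fin.append_right (lft z) (rgt z) b

theorem lft_add (z w : Ix (r + r)) : lft (z + w) = lft z + lft w := rfl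
theorem rgt_add (z w : Ix (r + r)) : rgt (z + w) = rgt z + rgt w := rfl

theorem lft_zero : lft (0 : Ix (r + r)) = 0 := rfl
theorem rgt_zero : rgt (0 : Ix (r + r)) = 0 := rfl

/-- the first `l` coordinates are replaced by zero -/
def zr (l : ℕ) (z : Ix (r + r)) : Ix (r + r) := fun a => if a.val < l then 0 else z a

/-- the coordinate vector -/
def un (r l : ℕ) : Ix (r + r) := fun a => if a.val = l then 1 else 0

theorem zr_add (l : ℕ) (z w : Ix (r + r)) : zr l (z + w) = zr l z + zr l w := by
  funext a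
  simp only [zr, Pi.add_apply]
  split_ifs <;> simp

theorem zr_zero_left (z : Ix (r + r)) : zr 0 z = z := by
  funext a; simp [zr]

theorem zr_zr (l : ℕ) (z : Ix (r + r)) : zr l (zr l z) = zr l z := by
  funext a
  simp only [zr]
  split_ifs <;> rfl

theorem zr_succ_zr (l : ℕ) (z : Ix (r + r)) : zr (l + 1) (zr l z) = zr (l + 1) z := by
  funext a
  simp only [zr]
  split_ifs with h1 h2
  · rfl
  · omega
  · rfl

theorem zr_of_succ {l : ℕ} {z : Ix (r + r)} (h : zr (l + 1) z = z) : zr l z = z := by
  funext a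
  have h1 := congrFun h a
  simp only [zr] at h1 ⊢
  split_ifs with h2
  · rw [if_pos (by omega)] at h1; exact h1
  · rfl

theorem zr_succ_un (l : ℕ) : zr (l + 1) (un r l) = 0 := by
  funext a
  simp only [zr, un, Pi.zero_apply]
  split_ifs with h1 h2
  · rfl
  · omega
  · rfl

theorem zr_un (l : ℕ) : zr l (un r l) = un r l := by
  funext a
  simp only [zr, un]
  split_ifs with h1 h2
  · omega
  · rfl
  · rfl
  · rfl

theorem add_self (z : Ix r) : z + z = 0 := by
  funext a; exact CharTwo.add_self_eq_zero _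

theorem zr_split {l : ℕ} {z : Ix (r + r)} (h : zr l z = z) : z = zr (l + 1) z ∨ z = zr (l + 1) z + un r l := by
  by_cases hl : l < r + r
  · have h0 : z ⟨l, hl⟩ = 0 ∨ z ⟨l, hl⟩ = 1 := by
      generalize z ⟨l, hl⟩ = b
      revert b; decide
    rcases h0 with h0 | h0
    · left
      funext a
      simp only [zr]
      split_ifs with h1
      · rcases Nat.lt_succ_iff_lt_or_eq.1 h1 with h2 | h2
        · have := congrFun h a
          simp only [zr] at this
          rw [if_pos h2] at this
          exact this.symm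
        · have : a = ⟨l, hl⟩ := Fin.ext h2
          rw [this]; exact h0
      · rfl
    · right
      funext a
      simp only [zr, un, Pi.add_apply]
      split_ifs with h1 h2 h2
      · have : a = ⟨l, hl⟩ := Fin.ext h2
        rw [this, h0]; simp
      · have := congrFun h a
        simp only [zr] at this
        rw [if_pos (by omega)] at this
        rw [← this]; simp
      · omega
      · simp
  · left
    funext a
    have := congrFun h a
    simp only [zr] at this ⊢
    rw [if_pos (by omega)] at this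
    rw [if_pos (by omega)]
    exact this.symm

theorem zr_succ_iff {l : ℕ} {y z : Ix (r + r)} (hz : zr (l + 1) z = z) :
    zr (l + 1) y = z ↔ (zr l y = z ∨ zr l y = z + un r l) := by
  constructor
  · intro h
    have h1 := zr_split (l := l) (z := zr l y) (zr_zr l y)
    rw [zr_succ_zr, h] at h1
    exact h1
  · rintro (h | h)
    · rw [← zr_succ_zr, h, hz]
    · rw [← zr_succ_zr, h, zr_add, hz, zr_succ_un, add_zero]

theorem un_ne_zero {l : ℕ} (hl : l < r + r) : un r l ≠ 0 := by
  intro h
  have := congrFun h ⟨l, hl⟩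
  simp [un] at this

/-- the node which computes `T(v, i)` -/
def fn (r h v : ℕ) (i : Ix r) : Nd r := if 2 ^ h ≤ v then .leaf v i else .sm v i (r + r) 0

/-- the labels -/
def gT (K : Type) (r h : ℕ) : Nd r → Gate K (Vr r) (Nd r)
  | .leaf v i => .var (v, i, 0, 0)
  | .xv v i j k => .var (v, i, j, k)
  | .pr v j k => .mul (fn r h (2 * v) j) (fn r h (2 * v + 1) k)
  | .sm v i 0 z => .mul (.xv v i (lft z) (rgt z)) (.pr v (lft z) (rgt z))
  | .sm v i (l + 1) z => .add [.sm v i l z, .sm v i l (z + un r l)]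

/-- the nodes which are used -/
def okT (r h : ℕ) : Nd r → Prop
  | .leaf v i => 2 ^ h ≤ v ∧ v < 2 ^ (h + 1) ∧ (v = 1 → i = 0)
  | .xv v i _ _ => 1 ≤ v ∧ v < 2 ^ h ∧ (v = 1 → i = 0)
  | .pr v _ _ => 1 ≤ v ∧ v < 2 ^ h
  | .sm v i l z => 1 ≤ v ∧ v < 2 ^ h ∧ (v = 1 → i = 0) ∧ l ≤ r + r ∧ zr l z = z

/-- the rank of a node -/
def rk (r h : ℕ) : Nd r → ℕ
  | .leaf _ _ => 0
  | .xv _ _ _ _ => 0
  | .pr v _ _ => (2 ^ h - v) * (r + r + 3) + 1
  | .sm v _ l _ => (2 ^ h - v) * (r + r + 3) + 2 + l

theorem ok_fn {h v : ℕ} {i : Ix r} (hv : 2 ≤ v) (hv2 : v < 2 ^ (h + 1)) : okT r h (fn r h v i) := by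
  unfold fn
  split_ifs with h1
  · exact ⟨h1, hv2, fun h2 => by omega⟩
  · refine ⟨by omega, by omega, fun h2 => by omega, le_refl _, ?_⟩
    funext a
    simp [zr]

theorem ok_preds (K : Type) (h : ℕ) (t : Nd r) (ht : okT r h t) : ∀ s ∈ (gT K r h t).preds, okT r h s := by
  intro s hs
  have hpow : 2 ^ (h + 1) = 2 * 2 ^ h := by rw [pow_succ]; ring
  cases t with
  | leaf v i => simp [gT, Gate.preds] at hs
  | xv v i j k => simp [gT, Gate.preds] at hs
  | pr v j k =>
    simp only [gT, Gate.preds, List.mem_cons, List.not_mem_nil, or_false] at hs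
    obtain ⟨h1, h2⟩ := ht
    rcases hs with rfl | rfl
    · exact ok_fn (by omega) (by omega)
    · exact ok_fn (by omega) (by omega)
  | sm v i l z =>
    obtain ⟨h1, h2, h3, h4, h5⟩ := ht
    rcases l with _ | l
    · simp only [gT, Gate.preds, List.mem_cons, List.not_mem_nil, or_false] at hs
      rcases hs with rfl | rfl
      · exact ⟨h1, h2, h3⟩
      · exact ⟨h1, h2⟩
    · simp only [gT, Gate.preds, List.mem_cons, List.not_mem_nil, or_false] at hs
      rcases hs with rfl | rfl
      · exact ⟨h1, h2, h3, by omega, zr_of_succ h5⟩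
      · refine ⟨h1, h2, h3, by omega, ?_⟩
        rw [zr_add, zr_of_succ h5, zr_un]

theorem rk_fn {h v : ℕ} {i : Ix r} : rk r h (fn r h v i) ≤ (2 ^ h - v) * (r + r + 3) + 2 + (r + r) := by
  unfold fn
  split_ifs
  · simp [rk]
  · simp [rk]

theorem rk_lt (K : Type) (h : ℕ) (t : Nd r) (ht : okT r h t) : ∀ s ∈ (gT K r h t).preds, rk r h s < rk r h t := by
  intro s hs
  cases t with
  | leaf v i => simp [gT, Gate.preds] at hs
  | xv v i j k => simp [gT, Gate.preds] at hs
  | pr v j k =>
    simp only [gT, Gate.preds, List.mem_cons, List.not_mem_nil, or_false] at hs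
    obtain ⟨h1, h2⟩ := ht
    have key : ∀ w, v + 1 ≤ w → (2 ^ h - w) * (r + r + 3) + 2 + (r + r) < (2 ^ h - v) * (r + r + 3) + 1 := by
      intro w hw
      have h3 : 2 ^ h - w + 1 ≤ 2 ^ h - v := by omega
      have h4 := Nat.mul_le_mul_right (r + r + 3) h3
      rw [add_mul, one_mul] at h4
      omega
    rcases hs with rfl | rfl
    · refine lt_of_le_of_lt rk_fn (key _ (by omega))
    · refine lt_of_le_of_lt rk_fn (key _ (by omega))
  | sm v i l z =>
    rcases l with _ | l
    · simp only [gT, Gate.preds, List.mem_cons, List.not_mem_nil, or_false] at hs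
      rcases hs with rfl | rfl
      · simp [rk]
      · simp [rk]
    · simp only [gT, Gate.preds, List.mem_cons, List.not_mem_nil, or_false] at hs
      rcases hs with rfl | rfl
      · simp [rk]
      · simp [rk]

/-- the vertex of a node -/
def vx : Nd r → ℕ
  | .leaf v _ => v
  | .xv v _ _ _ => v
  | .pr v _ _ => v
  | .sm v _ _ _ => v

theorem vx_fn (h v : ℕ) (i : Ix r) : vx (fn r h v i) = v := by
  unfold fn; split_ifs <;> rfl

theorem ok_out (h : ℕ) : okT r h (fn r h 1 0) := by
  have hpow : 2 ^ (h + 1) = 2 * 2 ^ h := by rw [pow_succ]; ring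
  have h1 : 1 ≤ 2 ^ h := Nat.one_le_two_pow
  unfold fn
  split_ifs with h2
  · exact ⟨h2, by omega, fun _ => rfl⟩
  · refine ⟨le_refl _, by omega, fun _ => rfl, le_refl _, ?_⟩
    funext a
    simp [zr]

/-- the output is not used -/
theorem out_not_pred (K : Type) (h : ℕ) (t : Nd r) (ht : okT r h t) : fn r h 1 0 ∉ (gT K r h t).preds := by
  intro hs
  cases t with
  | leaf v i => simp [gT, Gate.preds] at hs
  | xv v i j k => simp [gT, Gate.preds] at hs
  | pr v j k =>
    simp only [gT, Gate.preds, List.mem_cons, List.not_mem_nil, or_false] at hs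
    rcases hs with hs | hs
    · have := congrArg vx hs
      rw [vx_fn, vx_fn] at this
      omega
    · have := congrArg vx hs
      rw [vx_fn, vx_fn] at this
      have := ht.1
      omega
  | sm v i l z =>
    obtain ⟨h1, h2, h3, h4, h5⟩ := ht
    rcases l with _ | l
    · simp only [gT, Gate.preds, List.mem_cons, List.not_mem_nil, or_false] at hs
      unfold fn at hs
      split_ifs at hs <;> simp at hs
    · simp only [gT, Gate.preds, List.mem_cons, List.not_mem_nil, or_false] at hs
      unfold fn at hs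
      split_ifs at hs
      · simp at hs
      · simp only [Nd.sm.injEq] at hs
        omega

/-- every other node is used -/
theorem exists_succ (K : Type) (h : ℕ) (t : Nd r) (ht : okT r h t) (hne : t ≠ fn r h 1 0) :
    ∃ s, okT r h s ∧ t ∈ (gT K r h s).preds := by
  have hpow : 2 ^ (h + 1) = 2 * 2 ^ h := by rw [pow_succ]; ring
  -- nodes `fn v i` with `v ≥ 2`
  have hfn : ∀ (v : ℕ) (i : Ix r), 2 ≤ v → v < 2 ^ (h + 1) → ∃ s, okT r h s ∧ fn r h v i ∈ (gT K r h s).preds := by
    intro v i hv hv2
    rcases Nat.even_or_odd' v with ⟨w, hw | hw⟩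
    · refine ⟨.pr w i 0, ⟨by omega, by omega⟩, ?_⟩
      simp only [gT, Gate.preds, List.mem_cons, List.not_mem_nil, or_false]
      left; rw [hw]
    · refine ⟨.pr w 0 i, ⟨by omega, by omega⟩, ?_⟩
      simp only [gT, Gate.preds, List.mem_cons, List.not_mem_nil, or_false]
      right; rw [hw]
  cases t with
  | leaf v i =>
    obtain ⟨h1, h2, h3⟩ := ht
    have hfnv : fn r h v i = .leaf v i := by unfold fn; rw [if_pos h1]
    have hpos : 0 < 2 ^ h := by positivity
    by_cases hv : v = 1
    · exfalso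
      apply hne
      rw [← hfnv, hv, h3 hv]
    · rw [← hfnv]
      exact hfn v i (by omega) h2
  | xv v i j k =>
    obtain ⟨h1, h2, h3⟩ := ht
    refine ⟨.sm v i 0 (jn j k), ⟨h1, h2, h3, Nat.zero_le _, zr_zero_left _⟩, ?_⟩
    simp only [gT, Gate.preds, List.mem_cons, List.not_mem_nil, or_false]
    left; rw [lft_jn, rgt_jn]
  | pr v j k =>
    obtain ⟨h1, h2⟩ := ht
    refine ⟨.sm v 0 0 (jn j k), ⟨h1, h2, fun _ => rfl, Nat.zero_le _, zr_zero_left _⟩, ?_⟩
    simp only [gT, Gate.preds, List.mem_cons, List.not_mem_nil, or_false]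
    right; rw [lft_jn, rgt_jn]
  | sm v i l z =>
    obtain ⟨h1, h2, h3, h4, h5⟩ := ht
    rcases Nat.lt_or_ge l (r + r) with hl | hl
    · refine ⟨.sm v i (l + 1) (zr (l + 1) z), ⟨h1, h2, h3, by omega, zr_zr _ _⟩, ?_⟩
      simp only [gT, Gate.preds, List.mem_cons, List.not_mem_nil, or_false]
      rcases zr_split h5 with h6 | h6
      · left; rw [← h6]
      · right; rw [← h6]
    · have hl' : l = r + r := by omega
      have hz : z = 0 := by
        rw [← h5, hl']
        funext a
        simp [zr]
      have hfnv : fn r h v i = .sm v i l z := by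
        unfold fn; rw [if_neg (by omega), hl', hz]
      by_cases hv : v = 1
      · exfalso
        apply hne
        rw [← hfnv, hv, h3 hv]
      · rw [← hfnv]
        exact hfn v i (by omega) (by omega)

/-- the code of a node -/
def code (r h : ℕ) (t : Nd r) : Fin 4 × ℕ × Ix r × Ix (r + r) × ℕ :=
  match t with
  | .leaf v i => (0, v, i, 0, 0)
  | .xv v i j k => (1, v, i, jn j k, 0)
  | .pr v j k => (2, v, 0, jn j k, 0)
  | .sm v i l z => (3, v, i, z, l)

theorem jn_inj {j k j' k' : Ix r} (h : jn j k = jn j' k') : j = j' ∧ k = k' := by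
  constructor
  · rw [← lft_jn j k, h, lft_jn]
  · rw [← rgt_jn j k, h, rgt_jn]

theorem code_inj (h : ℕ) : Function.Injective (code r h) := by
  intro s t hst
  cases s <;> cases t <;> simp only [code, Prod.mk.injEq] at hst
  case leaf.leaf => obtain ⟨_, rfl, rfl, _, _⟩ := hst; rfl
  case xv.xv =>
    obtain ⟨_, rfl, rfl, h1, _⟩ := hst
    obtain ⟨rfl, rfl⟩ := jn_inj h1
    rfl
  case pr.pr =>
    obtain ⟨_, rfl, _, h1, _⟩ := hst
    obtain ⟨rfl, rfl⟩ := jn_inj h1
    rfl
  case sm.sm => obtain ⟨_, rfl, rfl, rfl, rfl⟩ := hst; rfl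
  all_goals exact absurd hst.1 (by decide)

/-- the code with bounds -/
def codeF (r h : ℕ) (t : {t : Nd r // okT r h t}) :
    Fin 4 × Fin (2 ^ (h + 1)) × Ix r × Ix (r + r) × Fin (r + r + 1) :=
  ((code r h t.1).1, ⟨(code r h t.1).2.1 % 2 ^ (h + 1), Nat.mod_lt _ (by positivity)⟩, (code r h t.1).2.2.1,
    (code r h t.1).2.2.2.1, ⟨(code r h t.1).2.2.2.2 % (r + r + 1), Nat.mod_lt _ (by omega)⟩)

theorem codeF_inj (r h : ℕ) : Function.Injective (codeF r h) := by
  have hpow : 2 ^ (h + 1) = 2 * 2 ^ h := by rw [pow_succ]; ring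
  have hb : ∀ t : {t : Nd r // okT r h t}, (code r h t.1).2.1 < 2 ^ (h + 1) ∧
      (code r h t.1).2.2.2.2 < r + r + 1 := by
    rintro ⟨t, ht⟩
    cases t with
    | leaf v i => exact ⟨ht.2.1, by simp only [code]; omega⟩
    | xv v i j k => exact ⟨by have := ht.2.1; simp only [code]; omega, by simp only [code]; omega⟩
    | pr v j k => exact ⟨by have := ht.2; simp only [code]; omega, by simp only [code]; omega⟩
    | sm v i l z =>
      have h1 := ht.2.1
      have h2 := ht.2.2.2.1
      exact ⟨by simp only [code]; omega, by simp only [code]; omega⟩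
  intro s t hst
  simp only [codeF, Prod.mk.injEq, Fin.mk.injEq] at hst
  obtain ⟨h1, h2, h3, h4, h5⟩ := hst
  rw [Nat.mod_eq_of_lt (hb s).1, Nat.mod_eq_of_lt (hb t).1] at h2
  rw [Nat.mod_eq_of_lt (hb s).2, Nat.mod_eq_of_lt (hb t).2] at h5
  exact Subtype.ext (code_inj h (Prod.ext h1 (Prod.ext h2 (Prod.ext h3 (Prod.ext h4 h5)))))

instance (r h : ℕ) : Finite {t : Nd r // okT r h t} := Finite.of_injective _ (codeF_inj r h)

/-- the circuit -/
noncomputable def circ (K : Type) (r h : ℕ) : Circuit K (Vr r) where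
  N := {t : Nd r // okT r h t}
  fin := Fintype.ofFinite _
  gate t := (gT K r h t.1).restrict (ok_preds K h t.1 t.2)
  out := ⟨fn r h 1 0, ok_out h⟩
  acyclic := by
    have key : ∀ s t : {t : Nd r // okT r h t}, Relation.TransGen (fun a b : {t : Nd r // okT r h t} =>
        a ∈ ((gT K r h b.1).restrict (ok_preds K h b.1 b.2)).preds) s t → rk r h s.1 < rk r h t.1 := by
      intro s t hst
      induction hst with
      | single h1 => exact rk_lt K h _ (Subtype.prop _) _ ((mem_restrict _ _ _).1 h1)
      | tail _ h1 ih => exact ih.trans (rk_lt K h _ (Subtype.prop _) _ ((mem_restrict _ _ _).1 h1))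
    intro n hn
    exact lt_irrefl _ (key n n hn)
  sink := by
    intro n
    constructor
    · intro h1
      by_contra hne
      obtain ⟨s, hs, hmem⟩ := exists_succ K h n.1 n.2 (fun h2 => hne (Subtype.ext h2))
      exact h1 ⟨s, hs⟩ ((mem_restrict _ _ _).2 hmem)
    · rintro rfl m hm
      exact out_not_pred K h m.1 m.2 ((mem_restrict _ _ _).1 hm)

theorem circ_size (K : Type) (r h : ℕ) :
    (circ K r h).size ≤ 4 * 2 ^ (h + 1) * 2 ^ r * 2 ^ (r + r) * (r + r + 1) := by
  unfold Circuit.size
  have h1 : @Fintype.card (circ K r h).N (circ K r h).fin ≤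
      Fintype.card (Fin 4 × Fin (2 ^ (h + 1)) × Ix r × Ix (r + r) × Fin (r + r + 1)) :=
    @Fintype.card_le_of_injective _ _ (circ K r h).fin _ (codeF r h) (codeF_inj r h)
  refine h1.trans (le_of_eq ?_)
  simp only [Fintype.card_prod, Fintype.card_fin, Fintype.card_fun, ZMod.card]
  ring

theorem circ_fanInTwo (K : Type) (r h : ℕ) : (circ K r h).FanInTwo := by
  rintro ⟨t, ht⟩ l hl
  change (gT K r h t).restrict (ok_preds K h t ht) = Gate.add l at hl
  cases t with
  | leaf v i => simp [gT, Gate.restrict] at hl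
  | xv v i j k => simp [gT, Gate.restrict] at hl
  | pr v j k => simp [gT, Gate.restrict] at hl
  | sm v i l' z =>
    rcases l' with _ | l'
    · simp [gT, Gate.restrict] at hl
    · have h1 := congrArg (fun g => g.preds.length) hl
      simp only [gT, Gate.restrict, Gate.preds, List.length_map, List.length_attach, List.length_cons,
        List.length_nil] at h1
      exact h1.symm

/-! ### invariance -/

/-- the action on the nodes -/
def sT (γ : ℕ → Ix r) : Nd r → Nd r
  | .leaf v i => .leaf v (i + γ v)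
  | .xv v i j k => .xv v (i + γ v) (j + γ (2 * v)) (k + γ (2 * v + 1))
  | .pr v j k => .pr v (j + γ (2 * v)) (k + γ (2 * v + 1))
  | .sm v i l z => .sm v (i + γ v) l (zr l (z + jn (γ (2 * v)) (γ (2 * v + 1))))

theorem sT_ok {h : ℕ} {γ : ℕ → Ix r} (hγ : ∀ u, γ u ≠ 0 → 2 ≤ u ∧ u < 2 ^ (h + 1)) (t : Nd r) (ht : okT r h t) :
    okT r h (sT γ t) := by
  have h1 : γ 1 = 0 := by
    by_contra hne
    have := (hγ 1 hne).1
    omega
  have hroot : ∀ (v : ℕ) (i : Ix r), (v = 1 → i = 0) → (v = 1 → i + γ v = 0) := by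
    intro v i hi hv
    rw [hi hv, hv, h1, add_zero]
  cases t with
  | leaf v i => exact ⟨ht.1, ht.2.1, hroot v i ht.2.2⟩
  | xv v i j k => exact ⟨ht.1, ht.2.1, hroot v i ht.2.2⟩
  | pr v j k => exact ht
  | sm v i l z => exact ⟨ht.1, ht.2.1, hroot v i ht.2.2.1, ht.2.2.2.1, zr_zr _ _⟩

theorem sT_sT {h : ℕ} (γ : ℕ → Ix r) (t : Nd r) (ht : okT r h t) : sT γ (sT γ t) = t := by
  have hz : ∀ {m : ℕ} (a b : Fin m → ZMod 2), a + b + b = a := fun a b => by
    funext i
    simp only [Pi.add_apply]
    rw [add_assoc, CharTwo.add_self_eq_zero, add_zero]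
  cases t with
  | leaf v i => simp only [sT]; rw [hz]
  | xv v i j k => simp only [sT]; rw [hz, hz, hz]
  | pr v j k => simp only [sT]; rw [hz, hz]
  | sm v i l z =>
    simp only [sT]
    rw [hz]
    congr 1
    rw [zr_add, zr_zr, ← zr_add, hz]
    exact ht.2.2.2.2

theorem sT_fn {h : ℕ} {γ : ℕ → Ix r} (v : ℕ) (i : Ix r) : sT γ (fn r h v i) = fn r h v (i + γ v) := by
  unfold fn
  split_ifs with h1
  · rfl
  · simp only [sT]
    congr 1
    funext a
    simp [zr]

theorem sT_image (K : Type) {h : ℕ} {γ : ℕ → Ix r} (hγ : ∀ u, γ u ≠ 0 → 2 ≤ u ∧ u < 2 ^ (h + 1)) (t : Nd r)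
    (ht : okT r h t) : (gT K r h t).Image (shift γ) (sT γ) (gT K r h (sT γ t)) := by
  have hpow : 2 ^ (h + 1) = 2 * 2 ^ h := by rw [pow_succ]; ring
  cases t with
  | leaf v i =>
    have h2 : γ (2 * v) = 0 := by
      by_contra hne
      have := (hγ _ hne).2
      have := ht.1
      omega
    have h3 : γ (2 * v + 1) = 0 := by
      by_contra hne
      have := (hγ _ hne).2
      have := ht.1
      omega
    simp only [gT, sT, Gate.Image, shift]
    rw [h2, h3]
    simp
  | xv v i j k => simp only [gT, sT, Gate.Image, shift]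
  | pr v j k =>
    left
    rw [sT_fn, sT_fn]
    rfl
  | sm v i l z =>
    rcases l with _ | l
    · simp only [gT, sT, Gate.Image]
      left
      rw [zr_zero_left, lft_add, rgt_add, lft_jn, rgt_jn]
    · simp only [gT, sT, Gate.Image]
      refine ⟨_, rfl, ?_⟩
      simp only [List.map_cons, List.map_nil, sT]
      set w := jn (γ (2 * v)) (γ (2 * v + 1)) with hw
      have hz : zr (l + 1) z = z := ht.2.2.2.2
      -- the images of the two predecessors
      have h1 : zr l (z + un r l + w) = zr l (z + w) + un r l := by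
        rw [add_right_comm, zr_add, zr_un]
      rw [h1]
      have h2 := zr_split (l := l) (z := zr l (z + w)) (zr_zr _ _)
      rw [zr_succ_zr] at h2
      rcases h2 with h2 | h2
      · rw [h2]
      · rw [h2]
        have h3 : zr (l + 1) (z + w) + un r l + un r l = zr (l + 1) (z + w) := by
          rw [add_assoc, add_self, add_zero]
        rw [h3]
        exact List.Perm.swap _ _ _

theorem circ_invariant (K : Type) (r h : ℕ) : Invariant h (circ K r h) := by
  intro γ hγ
  let f : {t : Nd r // okT r h t} → {t : Nd r // okT r h t} := fun t => ⟨sT γ t.1, sT_ok hγ t.1 t.2⟩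
  have hf : Function.Involutive f := fun t => Subtype.ext (sT_sT γ t.1 t.2)
  refine ⟨hf.toPerm, ?_, ?_⟩
  · refine Subtype.ext ?_
    show sT γ (fn r h 1 0) = fn r h 1 0
    have h1 : γ 1 = 0 := by
      by_contra hne
      have := (hγ 1 hne).1
      omega
    rw [sT_fn, h1, add_zero]
  · intro t
    exact image_restrict (shift γ) (sT γ) (sT_ok hγ) _ _ (ok_preds K h t.1 t.2) _ (sT_image K hγ t.1 t.2)

/-! ### the values -/

/-- the height of a vertex -/
def ht (h v : ℕ) : ℕ := h - Nat.log 2 v

theorem log_two_mul {v : ℕ} (hv : 1 ≤ v) : Nat.log 2 (2 * v) = Nat.log 2 v + 1 := by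
  rw [mul_comm, Nat.log_mul_base (by norm_num) (by omega)]

theorem log_two_mul_add {v : ℕ} (hv : 1 ≤ v) : Nat.log 2 (2 * v + 1) = Nat.log 2 v + 1 := by
  have h1 := Nat.log_div_base 2 (2 * v + 1)
  have h2 : (2 * v + 1) / 2 = v := by omega
  rw [h2] at h1
  have h3 : 1 ≤ Nat.log 2 (2 * v + 1) := by
    have := Nat.log_mono_right (b := 2) (show 2 ≤ 2 * v + 1 by omega)
    have h4 : Nat.log 2 2 = 1 := by decide
    omega
  omega

theorem log_lt {h v : ℕ} (hv : v < 2 ^ h) (hv1 : 1 ≤ v) : Nat.log 2 v < h :=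
  Nat.log_lt_of_lt_pow (by omega) hv

/-- the values -/
noncomputable def phi (K : Type) [CommSemiring K] (r h : ℕ) : Nd r → MvPolynomial (Vr r) K
  | .leaf v i => X (v, i, 0, 0)
  | .xv v i j k => X (v, i, j, k)
  | .pr v j k => tree K r (ht h v - 1) (2 * v) j * tree K r (ht h v - 1) (2 * v + 1) k
  | .sm v i l z => ∑ y : Ix (r + r), if zr l y = z then X (v, i, lft y, rgt y) *
      (tree K r (ht h v - 1) (2 * v) (lft y) * tree K r (ht h v - 1) (2 * v + 1) (rgt y)) else 0

theorem phi_fn (K : Type) [CommSemiring K] {h v : ℕ} (i : Ix r) (hv : 1 ≤ v) (_hv2 : v < 2 ^ (h + 1)) :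
    phi K r h (fn r h v i) = tree K r (ht h v) v i := by
  unfold fn
  split_ifs with h1
  · have h2 : ht h v = 0 := by
      unfold ht
      have : h ≤ Nat.log 2 v := by
        have := Nat.log_mono_right (b := 2) h1
        rwa [Nat.log_pow (by norm_num)] at this
      omega
    rw [h2]
    rfl
  · have h2 := log_lt (not_le.1 h1) hv
    obtain ⟨t, ht'⟩ : ∃ t, ht h v = t + 1 := ⟨ht h v - 1, by unfold ht; omega⟩
    simp only [phi]
    rw [ht', Nat.add_sub_cancel, tree]
    have h3 : ∀ y : Ix (r + r), zr (r + r) y = 0 := by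
      intro y; funext a; simp [zr]
    simp only [h3, if_true]
    rw [← Finset.sum_product', Finset.univ_product_univ]
    refine Finset.sum_bij' (fun y _ => (lft y, rgt y)) (fun p _ => jn p.1 p.2) ?_ ?_ ?_ ?_ ?_
    · intro y _; exact Finset.mem_univ _
    · intro p _; exact Finset.mem_univ _
    · intro y _; exact jn_lft_rgt y
    · intro p _; rw [lft_jn, rgt_jn]
    · intro y _; rw [mul_assoc]

theorem phi_eq (K : Type) [CommSemiring K] {h : ℕ} (t : Nd r) (ht' : okT r h t) :
    phi K r h t = (gT K r h t).value (phi K r h) := by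
  have hpow : 2 ^ (h + 1) = 2 * 2 ^ h := by rw [pow_succ]; ring
  cases t with
  | leaf v i => rfl
  | xv v i j k => rfl
  | pr v j k =>
    obtain ⟨h1, h2⟩ := ht'
    simp only [gT, Gate.value]
    rw [phi_fn K j (by omega) (by omega), phi_fn K k (by omega) (by omega)]
    have h3 : ht h (2 * v) = ht h v - 1 := by unfold ht; rw [log_two_mul h1]; omega
    have h4 : ht h (2 * v + 1) = ht h v - 1 := by unfold ht; rw [log_two_mul_add h1]; omega
    rw [h3, h4]
    rfl
  | sm v i l z =>
    rcases l with _ | l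
    · simp only [gT, Gate.value, phi, zr_zero_left]
      rw [Finset.sum_ite_eq']
      simp
    · have hz : zr (l + 1) z = z := ht'.2.2.2.2
      have hl : l < r + r := by have := ht'.2.2.2.1; omega
      simp only [gT, Gate.value, phi, List.map_cons, List.map_nil, List.sum_cons, List.sum_nil, add_zero]
      rw [← Finset.sum_add_distrib]
      refine Finset.sum_congr rfl fun y _ => ?_
      have h1 := zr_succ_iff (y := y) hz
      have h2 : ¬ (zr l y = z ∧ zr l y = z + un r l) := by
        rintro ⟨h3, h4⟩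
        rw [h3] at h4
        have h5 : un r l = 0 := by
          have h6 : z + z = z + (z + un r l) := congrArg (fun x => z + x) h4
          rw [← add_assoc, add_self, zero_add] at h6
          exact h6.symm
        exact un_ne_zero hl h5
      by_cases h3 : zr l y = z
      · rw [if_pos (h1.2 (Or.inl h3)), if_pos h3, if_neg (fun h4 => h2 ⟨h3, h4⟩), add_zero]
      · by_cases h4 : zr l y = z + un r l
        · rw [if_pos (h1.2 (Or.inr h4)), if_neg h3, if_pos h4, zero_add]
        · rw [if_neg (fun h5 => (h1.1 h5).elim h3 h4), if_neg h3, if_neg h4, add_zero]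

theorem circ_computes (K : Type) [CommSemiring K] (r h : ℕ) : (circ K r h).Computes (tree K r h 1 0) := by
  refine ⟨fun t => phi K r h t.1, ?_, ?_⟩
  · intro t
    show phi K r h t.1 = ((gT K r h t.1).restrict (ok_preds K h t.1 t.2)).value _
    rw [phi_eq K t.1 t.2]
    exact (value_restrict (phi K r h) _ _).symm
  · have h0 : 1 < 2 ^ (h + 1) := by
      have : 1 ≤ 2 ^ h := Nat.one_le_two_pow
      rw [pow_succ]; omega
    have h1 : ht h 1 = h := by
      have : Nat.log 2 1 = 0 := Nat.log_one_right 2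
      unfold ht
      omega
    show phi K r h (fn r h 1 0) = _
    rw [phi_fn K 0 (le_refl 1) h0, h1]

end Pool.Agent.H20VP
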