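import Pool.Agent.H20VP.Lower
import Pool.Agent.H20VP.Upper

/-!
# Degrees and variables of the family, and the numerical estimates
-/

set_option autoImplicit false

namespace Pool.Agent.H20VP

open Finset MvPolynomial

theorem tree_degree (K : Type) [Field K] (r t v : ℕ) (i : Ix r) :
    (tree K r t v i).totalDegree + 1 ≤ 2 ^ (t + 1) := by
  induction t generalizing v i with
  | zero => rw [tree, totalDegree_X]; norm_num
  | succ t ih =>
    have h1 : (tree K r (t + 1) v i).totalDegree ≤ 2 ^ (t + 1 + 1) - 1 := by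
      rw [tree]
      refine (totalDegree_finset_sum _ _).trans (Finset.sup_le fun j _ => ?_)
      refine (totalDegree_finset_sum _ _).trans (Finset.sup_le fun k _ => ?_)
      refine (totalDegree_mul _ _).trans ?_
      have h2 := totalDegree_mul (MvPolynomial.X (v, i, j, k)) (tree K r t (2 * v) j)
      rw [totalDegree_X] at h2
      have h3 := ih (2 * v) j
      have h4 := ih (2 * v + 1) k
      rw [pow_succ 2 (t + 1)]
      omega
    have h5 : 1 ≤ 2 ^ (t + 1 + 1) := Nat.one_le_two_pow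
    omega

theorem tree_vars (K : Type) [Field K] (r t v : ℕ) (i : Ix r) :
    ∀ x ∈ (tree K r t v i).vars, x.1 < (v + 1) * 2 ^ t := by
  classical
  induction t generalizing v i with
  | zero =>
    intro x hx
    rw [tree, vars_X, Finset.mem_singleton] at hx
    subst hx
    simp
  | succ t ih =>
    intro x hx
    rw [tree] at hx
    have h1 := vars_sum_subset _ _ hx
    rw [Finset.mem_biUnion] at h1
    obtain ⟨j, _, hj⟩ := h1
    have h2 := vars_sum_subset _ _ hj
    rw [Finset.mem_biUnion] at h2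
    obtain ⟨k, _, hk⟩ := h2
    have h3 := vars_mul _ _ hk
    rw [Finset.mem_union] at h3
    rcases h3 with h3 | h3
    · have h4 := vars_mul _ _ h3
      rw [Finset.mem_union] at h4
      rcases h4 with h4 | h4
      · rw [vars_X, Finset.mem_singleton] at h4
        subst h4
        have : 1 ≤ 2 ^ (t + 1) := Nat.one_le_two_pow
        nlinarith
      · have h5 := ih (2 * v) j x h4
        rw [pow_succ]
        nlinarith
    · have h5 := ih (2 * v + 1) k x h3
      rw [pow_succ]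
      nlinarith

theorem tree_vars_card (K : Type) [Field K] (r h : ℕ) :
    (tree K r h 1 0).vars.card ≤ 2 ^ (h + 1) * (2 ^ r * (2 ^ r * 2 ^ r)) := by
  classical
  have h1 : (tree K r h 1 0).vars ⊆ (Finset.range (2 ^ (h + 1))) ×ˢ (univ : Finset (Ix r × Ix r × Ix r)) := by
    intro x hx
    rw [Finset.mem_product]
    refine ⟨?_, Finset.mem_univ _⟩
    have := tree_vars K r h 1 0 x hx
    rw [Finset.mem_range, pow_succ]
    linarith
  refine (Finset.card_le_card h1).trans ?_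
  rw [Finset.card_product, Finset.card_range, Finset.card_univ]
  simp only [Fintype.card_prod, Fintype.card_fun, ZMod.card, Fintype.card_fin]
  exact le_refl _

theorem two_pow_log_le {n : ℕ} (hn : 1 ≤ n) : 2 ^ Nat.log 2 n ≤ n := Nat.pow_log_le_self 2 (by omega)

theorem fam_degree (K : Type) [Field K] {n : ℕ} (hn : 1 ≤ n) : (fam K n).totalDegree ≤ 2 * n := by
  have h1 := tree_degree K (Nat.log 2 n) (Nat.log 2 n) 1 0
  have h2 := two_pow_log_le hn
  rw [pow_succ] at h1
  unfold fam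
  omega

theorem fam_vars (K : Type) [Field K] {n : ℕ} (hn : 1 ≤ n) : (fam K n).vars.card ≤ 2 * n ^ 4 := by
  refine (tree_vars_card K (Nat.log 2 n) (Nat.log 2 n)).trans ?_
  have h2 := two_pow_log_le hn
  calc 2 ^ (Nat.log 2 n + 1) * (2 ^ Nat.log 2 n * (2 ^ Nat.log 2 n * 2 ^ Nat.log 2 n)) =
      2 * (2 ^ Nat.log 2 n) ^ 4 := by ring
    _ ≤ 2 * n ^ 4 := Nat.mul_le_mul_left _ (Nat.pow_le_pow_left h2 4)

theorem two_mul_succ_le (h : ℕ) : 2 * h + 1 ≤ 2 * 2 ^ h := by
  have : h + 1 ≤ 2 ^ h := Nat.lt_two_pow_self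
  omega

theorem fam_size (K : Type) {n : ℕ} (hn : 1 ≤ n) :
    (circ K (Nat.log 2 n) (Nat.log 2 n)).size ≤ 16 * n ^ 5 := by
  refine (circ_size K (Nat.log 2 n) (Nat.log 2 n)).trans ?_
  have h2 := two_pow_log_le hn
  set h := Nat.log 2 n
  have h3 : h + h + 1 ≤ 2 * 2 ^ h := by
    have := two_mul_succ_le h
    omega
  calc 4 * 2 ^ (h + 1) * 2 ^ h * 2 ^ (h + h) * (h + h + 1) ≤
      4 * 2 ^ (h + 1) * 2 ^ h * 2 ^ (h + h) * (2 * 2 ^ h) := Nat.mul_le_mul_left _ h3
    _ = 16 * (2 ^ h) ^ 5 := by ring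
    _ ≤ 16 * n ^ 5 := Nat.mul_le_mul_left _ (Nat.pow_le_pow_left h2 5)

/-- the lower bound is not polynomial -/
theorem superpoly (c : ℕ) : ∃ n, 1 ≤ n ∧ c * n ^ c < (2 ^ Nat.log 2 n - 1) ^ ((Nat.log 2 n + 1) / 2) := by
  refine ⟨2 ^ (2 * (c + 1) + 1), Nat.one_le_two_pow, ?_⟩
  rw [Nat.log_pow (by norm_num)]
  have h1 : (2 * (c + 1) + 1 + 1) / 2 = c + 2 := by omega
  rw [h1]
  have h2 : 2 ^ (2 * (c + 1)) ≤ 2 ^ (2 * (c + 1) + 1) - 1 := by
    rw [pow_succ 2 (2 * (c + 1))]
    have : 1 ≤ 2 ^ (2 * (c + 1)) := Nat.one_le_two_pow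
    omega
  have hc : c < 2 ^ c := Nat.lt_two_pow_self
  calc c * (2 ^ (2 * (c + 1) + 1)) ^ c < 2 ^ c * (2 ^ (2 * (c + 1) + 1)) ^ c :=
        Nat.mul_lt_mul_of_pos_right hc (by positivity)
    _ = 2 ^ (c * (2 * c + 4)) := by rw [← pow_mul, ← pow_add]; congr 1; ring
    _ ≤ 2 ^ (2 * (c + 1) * (c + 2)) := Nat.pow_le_pow_right (by norm_num) (by nlinarith)
    _ = (2 ^ (2 * (c + 1))) ^ (c + 2) := by rw [← pow_mul]
    _ ≤ _ := Nat.pow_le_pow_left h2 _

end Pool.Agent.H20VP
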