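import Pool.Agent.H20VP.Chain
import Pool.Agent.H20VP.Cutw

/-!
# The lower bound for the tensor networks on binary trees
-/

set_option autoImplicit false

namespace Pool.Agent.H20VP

open Finset MvPolynomial

variable {K : Type} [Field K] {r : ℕ}

/-- the edges of the tree of height `h` -/
abbrev Ed (h : ℕ) : Type := {u : ℕ // u ∈ Finset.Ico 2 (2 ^ (h + 1))}

/-- extension by zero -/
noncomputable def ext {h : ℕ} (γ : Ed h → Ix r) (u : ℕ) : Ix r :=
  if hu : u ∈ Finset.Ico 2 (2 ^ (h + 1)) then γ ⟨u, hu⟩ else 0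

theorem ext_coe {h : ℕ} (γ : Ed h → Ix r) (e : Ed h) : ext γ e.1 = γ e := by
  unfold ext
  rw [dif_pos e.2]

theorem ext_add {h : ℕ} (γ γ' : Ed h → Ix r) (u : ℕ) : ext (γ + γ') u = ext γ u + ext γ' u := by
  unfold ext
  split_ifs
  · rfl
  · simp

theorem ext_out {h : ℕ} (γ : Ed h → Ix r) (u : ℕ) (hu : u ∉ Finset.Ico 2 (2 ^ (h + 1))) : ext γ u = 0 := by
  unfold ext
  rw [dif_neg hu]

/-- the inner product -/
def dot (a b : Ix r) : ZMod 2 := ∑ i, a i * b i

theorem dot_add (a b c : Ix r) : dot a (b + c) = dot a b + dot a c := by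
  simp only [dot, Pi.add_apply, mul_add, Finset.sum_add_distrib]

theorem dot_zero (a : Ix r) : dot a 0 = 0 := by simp [dot]

theorem zero_dot (a : Ix r) : dot 0 a = 0 := by simp [dot]

/-- incidence -/
def incT (h : ℕ) (v : ℕ) (e : Ed h) : ZMod 2 := (if e.1 = v then 1 else 0) + (if e.1 / 2 = v then 1 else 0)

/-- the value of a variable at a character -/
noncomputable def evT (K : Type) [Field K] {h : ℕ} (c : Ed h → Ix r) (x : Vr r) : K :=
  sgn K (dot (ext c x.1) x.2.1) * sgn K (dot (ext c (2 * x.1)) x.2.2.1) * sgn K (dot (ext c (2 * x.1 + 1)) x.2.2.2)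

theorem evT_act {h : ℕ} (c γ : Ed h → Ix r) (x : Vr r) :
    evT K c (shift (ext γ) x) = sgn K (pair (fun e => incT h x.1 e • c e) γ) * evT K c x := by
  classical
  have hp : pair (fun e => incT h x.1 e • c e) γ = dot (ext c x.1) (ext γ x.1) +
      dot (ext c (2 * x.1)) (ext γ (2 * x.1)) + dot (ext c (2 * x.1 + 1)) (ext γ (2 * x.1 + 1)) := by
    set G : ℕ → ZMod 2 := fun u => dot (ext c u) (ext γ u) with hG
    have hG0 : ∀ u, u ∉ Finset.Ico 2 (2 ^ (h + 1)) → G u = 0 := fun u hu => by
      rw [hG]; simp only; rw [ext_out c u hu, zero_dot]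
    have h1 : pair (fun e => incT h x.1 e • c e) γ =
        ∑ e : Ed h, (((if e.1 = x.1 then 1 else 0) + (if e.1 / 2 = x.1 then 1 else 0)) * G e.1) := by
      unfold pair
      refine Finset.sum_congr rfl fun e _ => ?_
      simp only [hG, ext_coe, dot, incT, Pi.smul_apply, smul_eq_mul]
      rw [Finset.mul_sum]
      refine Finset.sum_congr rfl fun a _ => ?_
      ring
    rw [h1]
    have h2 : ∑ e : Ed h, (((if e.1 = x.1 then 1 else 0) + (if e.1 / 2 = x.1 then 1 else 0)) * G e.1) =
        ∑ u ∈ Finset.Ico 2 (2 ^ (h + 1)),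
          (((if u = x.1 then 1 else 0) + (if u / 2 = x.1 then 1 else 0)) * G u) :=
      Finset.sum_coe_sort (Finset.Ico 2 (2 ^ (h + 1)))
        (fun u => (((if u = x.1 then 1 else 0) + (if u / 2 = x.1 then 1 else 0)) * G u))
    rw [h2]
    have h3 : ∀ u, (((if u = x.1 then 1 else 0) + (if u / 2 = x.1 then 1 else 0)) * G u) =
        (if u = x.1 then G u else 0) + ((if u = 2 * x.1 then G u else 0) + (if u = 2 * x.1 + 1 then G u else 0)) := by
      intro u
      have h4 : ((if u / 2 = x.1 then 1 else 0 : ZMod 2)) * G u =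
          (if u = 2 * x.1 then G u else 0) + (if u = 2 * x.1 + 1 then G u else 0) := by
        by_cases h5 : u / 2 = x.1
        · rw [if_pos h5, one_mul]
          have h6 : u = 2 * x.1 ∨ u = 2 * x.1 + 1 := by omega
          rcases h6 with h6 | h6
          · rw [if_pos h6, if_neg (by omega), add_zero]
          · rw [if_neg (by omega), if_pos h6, zero_add]
        · rw [if_neg h5, if_neg (by omega), if_neg (by omega)]; simp
      rw [add_mul, h4]
      congr 1
      split_ifs <;> simp
    rw [Finset.sum_congr rfl fun u _ => h3 u, Finset.sum_add_distrib, Finset.sum_add_distrib]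
    have h7 : ∀ w, ∑ u ∈ Finset.Ico 2 (2 ^ (h + 1)), (if u = w then G u else 0) = G w := by
      intro w
      rw [Finset.sum_ite_eq']
      split_ifs with h8
      · rfl
      · exact (hG0 w h8).symm
    rw [h7, h7, h7]
    simp only [hG]
    ring
  rw [hp, sgn_add, sgn_add]
  unfold evT shift
  simp only [dot_add, sgn_add]
  ring

/-- the exponent of the product of all vertices of the subtree -/
noncomputable def Mn : ℕ → ℕ → (ℕ →₀ ℕ)
  | 0, v => Finsupp.single v 1
  | t + 1, v => Finsupp.single v 1 + (Mn t (2 * v) + Mn t (2 * v + 1))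

/-- the coefficient -/
noncomputable def cf (K : Type) [Field K] (r : ℕ) : ℕ → K
  | 0 => 1
  | t + 1 => (2 ^ r) ^ 2 * cf K r t ^ 2

theorem cf_ne (h2 : (2 : K) ≠ 0) (r t : ℕ) : cf K r t ≠ 0 := by
  induction t with
  | zero => exact one_ne_zero
  | succ t ih => exact mul_ne_zero (pow_ne_zero _ (pow_ne_zero _ h2)) (pow_ne_zero _ ih)

theorem sgn_mul_self (a : ZMod 2) : sgn K a * sgn K a = 1 := by
  rw [← sgn_add, CharTwo.add_self_eq_zero, sgn_zero]

theorem rho_tree {h : ℕ} (c : Ed h → Ix r) (t v : ℕ) (i : Ix r) :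
    rho (fun x : Vr r => x.1) (evT K c) (tree K r t v i) =
      monomial (Mn t v) (sgn K (dot (ext c v) i) * cf K r t) := by
  induction t generalizing v i with
  | zero =>
    rw [tree, rho, aeval_X, Mn, cf, mul_one, C_mul_X_eq_monomial]
    unfold evT
    simp only [dot_zero, sgn_zero, mul_one]
  | succ t ih =>
    rw [tree, map_sum]
    have h1 : ∀ j k : Ix r, rho (fun x : Vr r => x.1) (evT K c)
        (MvPolynomial.X (v, i, j, k) * tree K r t (2 * v) j * tree K r t (2 * v + 1) k) =
        monomial (Mn (t + 1) v) (sgn K (dot (ext c v) i) * cf K r t ^ 2) := by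
      intro j k
      rw [map_mul, map_mul, ih, ih, rho, aeval_X, C_mul_X_eq_monomial, monomial_mul, monomial_mul, Mn, add_assoc]
      congr 1
      unfold evT
      simp only
      have h2 := sgn_mul_self (K := K) (dot (ext c (2 * v)) j)
      have h3 := sgn_mul_self (K := K) (dot (ext c (2 * v + 1)) k)
      calc sgn K (dot (ext c v) i) * sgn K (dot (ext c (2 * v)) j) * sgn K (dot (ext c (2 * v + 1)) k) *
            (sgn K (dot (ext c (2 * v)) j) * cf K r t) * (sgn K (dot (ext c (2 * v + 1)) k) * cf K r t) =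
          sgn K (dot (ext c v) i) * (sgn K (dot (ext c (2 * v)) j) * sgn K (dot (ext c (2 * v)) j)) *
            (sgn K (dot (ext c (2 * v + 1)) k) * sgn K (dot (ext c (2 * v + 1)) k)) * cf K r t ^ 2 := by ring
        _ = _ := by rw [h2, h3]; ring
    have h4 : ∀ j : Ix r, rho (fun x : Vr r => x.1) (evT K c) (∑ k : Ix r,
        MvPolynomial.X (v, i, j, k) * tree K r t (2 * v) j * tree K r t (2 * v + 1) k) =
        monomial (Mn (t + 1) v) ((2 ^ r : K) * (sgn K (dot (ext c v) i) * cf K r t ^ 2)) := by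
      intro j
      rw [map_sum, Finset.sum_congr rfl fun k _ => h1 j k, ← map_sum, Finset.sum_const, Finset.card_univ,
        Fintype.card_fun, ZMod.card, Fintype.card_fin, nsmul_eq_mul]
      push_cast
      rfl
    rw [Finset.sum_congr rfl fun j _ => h4 j, ← map_sum, Finset.sum_const, Finset.card_univ,
        Fintype.card_fun, ZMod.card, Fintype.card_fin, nsmul_eq_mul, cf]
    congr 1
    push_cast
    ring

/-- the exponent is the indicator of the subtree -/
theorem Mn_apply (t v u : ℕ) (hv : 1 ≤ v) : (Sub v t u → Mn t v u = 1) ∧ (¬ Sub v t u → Mn t v u = 0) := by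
  induction t generalizing v with
  | zero =>
    rw [Mn]
    constructor
    · rintro ⟨s, hs, h⟩
      have : s = 0 := by omega
      subst this
      simp only [pow_zero, Nat.div_one] at h
      subst h
      simp
    · intro h
      rw [Finsupp.single_apply, if_neg]
      rintro rfl
      exact h (Sub.self _ _)
  | succ t ih =>
    have h1 := ih (2 * v) (by omega)
    have h2 := ih (2 * v + 1) (by omega)
    have hchild : ∀ i < 2, Sub (2 * v + i) t u → Sub v (t + 1) u := by
      rintro i hi ⟨s, hs, h⟩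
      refine ⟨s + 1, by omega, ?_⟩
      rw [pow_succ, ← Nat.div_div_eq_div_mul, h]; omega
    have hcases : Sub v (t + 1) u → u = v ∨ Sub (2 * v) t u ∨ Sub (2 * v + 1) t u := by
      rintro ⟨s, hs, h⟩
      rcases s with _ | s
      · left; simpa using h
      · right
        rw [pow_succ, ← Nat.div_div_eq_div_mul] at h
        have h3 : u / 2 ^ s = 2 * v ∨ u / 2 ^ s = 2 * v + 1 := by omega
        rcases h3 with h3 | h3
        · left; exact ⟨s, by omega, h3⟩
        · right; exact ⟨s, by omega, h3⟩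
    have hd1 : ∀ i < 2, u = v → ¬ Sub (2 * v + i) t u := by
      intro i hi huv h
      have := h.le
      omega
    have hd2 : Sub (2 * v) t u → ¬ Sub (2 * v + 1) t u := by
      rintro ⟨s, hs, h⟩ ⟨s', hs', h'⟩
      have key : ∀ (i j s s' : ℕ), i < 2 → j < 2 → u / 2 ^ s = 2 * v + i → u / 2 ^ s' = 2 * v + j → s < s' →
          False := by
        intro i j s s' hi hj h1 h2 hlt
        have h3 : u / 2 ^ s' = (u / 2 ^ s) / 2 ^ (s' - s) := by
          rw [Nat.div_div_eq_div_mul, ← pow_add]
          congr 2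
          omega
        have h4 : 2 ≤ 2 ^ (s' - s) := by
          calc 2 = 2 ^ 1 := by norm_num
            _ ≤ 2 ^ (s' - s) := Nat.pow_le_pow_right (by norm_num) (by omega)
        have h5 : (u / 2 ^ s) / 2 ^ (s' - s) ≤ (u / 2 ^ s) / 2 := Nat.div_le_div_left h4 (by norm_num)
        rw [← h3, h1, h2] at h5
        omega
      rcases lt_trichotomy s s' with hlt | heq | hgt
      · exact key 0 1 s s' (by norm_num) (by norm_num) h h' hlt
      · subst heq; omega
      · exact key 1 0 s' s (by norm_num) (by norm_num) h' h hgt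
    rw [Mn]
    simp only [Finsupp.add_apply]
    constructor
    · intro h
      rcases hcases h with h3 | h3 | h3
      · subst h3
        rw [h1.2 (hd1 0 (by norm_num) rfl), h2.2 (hd1 1 (by norm_num) rfl)]
        simp
      · have h5 : ¬ v = u := fun h4 => hd1 0 (by norm_num) h4.symm h3
        rw [h1.1 h3, h2.2 (hd2 h3), Finsupp.single_apply, if_neg h5]; omega
      · have h5 : ¬ v = u := fun h4 => hd1 1 (by norm_num) h4.symm h3
        rw [h2.1 h3, h1.2 (fun h4 => hd2 h4 h3), Finsupp.single_apply, if_neg h5]; omega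
    · intro h
      have h5 : ¬ v = u := by
        rintro rfl
        exact h (Sub.self _ _)
      rw [h1.2 (fun h3 => h (hchild 0 (by norm_num) h3)), h2.2 (fun h3 => h (hchild 1 (by norm_num) h3)),
        Finsupp.single_apply, if_neg h5]
      omega

theorem bd_incT {h : ℕ} (m : ℕ →₀ ℕ) (e : Ed h) : bd (incT h) m e = (m e.1 : ZMod 2) + (m (e.1 / 2) : ZMod 2) := by
  induction m using Finsupp.induction_linear with
  | zero => simp [bd_zero]
  | add m m' hm hm' =>
    rw [bd_add, hm, hm', Finsupp.add_apply, Finsupp.add_apply]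
    push_cast
    ring
  | single v n =>
    have key : ∀ x : ℕ, ((if v = x then n else 0 : ℕ) : ZMod 2) = n * (if x = v then 1 else 0) := by
      intro x
      by_cases hx : v = x
      · subst hx; simp
      · rw [if_neg hx, if_neg (Ne.symm hx)]; simp
    rw [bd_single, incT, Finsupp.single_apply, Finsupp.single_apply, key, key, mul_add]

/-- from a chain to a function of the time -/
theorem exists_path {α : Type} {R : α → α → Prop} {a b : α} (h : Relation.ReflTransGen R a b) :
    ∃ (n : ℕ) (D : ℕ → α), D 0 = a ∧ D n = b ∧ ∀ τ < n, R (D τ) (D (τ + 1)) := by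
  induction h with
  | refl => exact ⟨0, fun _ => a, rfl, rfl, fun τ h => by omega⟩
  | @tail b c _ hbc ih =>
    obtain ⟨n, D, h0, hn, hD⟩ := ih
    refine ⟨n + 1, fun τ => if τ ≤ n then D τ else c, by simp [h0], by simp, ?_⟩
    intro τ hτ
    rcases Nat.lt_succ_iff_lt_or_eq.1 hτ with h1 | h1
    · show R (if τ ≤ n then D τ else c) (if τ + 1 ≤ n then D (τ + 1) else c)
      rw [if_pos (by omega), if_pos (by omega)]
      exact hD τ h1
    · subst h1
      show R (if τ ≤ τ then D τ else c) (if τ + 1 ≤ τ then D (τ + 1) else c)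
      rw [if_pos (le_refl _), if_neg (by omega), hn]
      exact hbc

theorem lower (h2 : (2 : K) ≠ 0) (h : ℕ) (C₀ : Circuit K (Vr r)) (hinv : Invariant h C₀) (hws : C₀.WeaklySkew)
    (hf : C₀.Computes (tree K r h 1 0)) : (2 ^ r - 1) ^ ((h + 1) / 2) ≤ C₀.size := by
  classical
  by_contra hcon
  push Not at hcon
  have hsize : 1 ≤ C₀.size := by
    unfold Circuit.size
    let := C₀.fin
    exact Fintype.card_pos_iff.2 ⟨C₀.out⟩
  -- `h ≥ 1`
  obtain ⟨m, hm⟩ : ∃ m, (h + 1) / 2 = m + 1 := by
    rcases Nat.eq_zero_or_pos ((h + 1) / 2) with h0 | h0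
    · rw [h0, pow_zero] at hcon; omega
    · exact ⟨(h + 1) / 2 - 1, by omega⟩
  rw [hm] at hcon
  have hmh : 2 * m + 1 ≤ h := by omega
  have hch := chain (K := K) (V := ℕ) (E := Ed h) (r := r) (fun x : Vr r => x.1) (incT h)
    (fun γ x => shift (ext γ) x) (evT K) h2 (fun γ x => rfl) (fun c γ x => evT_act c γ x)
    (fun γ γ' x => by
      unfold shift
      simp only [ext_add]
      refine Prod.ext rfl (Prod.ext ?_ (Prod.ext ?_ ?_))
      · simp only; rw [add_comm (ext γ x.1), add_assoc]
      · simp only; rw [add_comm (ext γ (2 * x.1)), add_assoc]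
      · simp only; rw [add_comm (ext γ (2 * x.1 + 1)), add_assoc])
    (fun γ x => by
      have hz : ∀ (a b : Ix r), a + b + b = a := fun a b => by
        funext i
        simp only [Pi.add_apply]
        rw [add_assoc, CharTwo.add_self_eq_zero, add_zero]
      unfold shift
      refine Prod.ext rfl (Prod.ext ?_ (Prod.ext ?_ ?_))
      · exact hz _ _
      · exact hz _ _
      · exact hz _ _)
    C₀ (fun γ => hinv (ext γ) (fun u hu => by
      by_contra hcon2
      exact hu (ext_out γ u (fun h3 => hcon2 (Finset.mem_Ico.1 h3))))) hws _ hf (Mn h 1)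
    (fun c => by
      rw [rho_tree, coeff_monomial, if_pos rfl, dot_zero, sgn_zero, one_mul]
      exact cf_ne h2 r h) m hcon
  obtain ⟨n, D, h0, hn, hD⟩ := exists_path hch
  -- monotonicity
  have hmono1 : ∀ τ < n, ∀ u, D τ u ≤ D (τ + 1) u := by
    intro τ hτ u
    obtain ⟨_, _, v, hv⟩ := hD τ hτ
    rw [hv, Finsupp.add_apply]
    omega
  have hmono2 : ∀ τ τ' u, τ ≤ τ' → τ' ≤ n → D τ u ≤ D τ' u := by
    intro τ τ' u hle
    induction τ', hle using Nat.le_induction with
    | base => intro _; exact le_refl _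
    | succ τ' _ ih => intro hn'; exact (ih (by omega)).trans (hmono1 τ' (by omega) u)
  have hle1 : ∀ τ ≤ n, ∀ u, D τ u ≤ 1 := by
    intro τ hτ u
    refine (hmono2 τ n u hτ (le_refl n)).trans ?_
    rw [hn]
    by_cases hs : Sub 1 h u
    · rw [(Mn_apply h 1 u (le_refl 1)).1 hs]
    · rw [(Mn_apply h 1 u (le_refl 1)).2 hs]; omega
  have hsmall : ∀ τ ≤ n, wt (incT h) (D τ) ≤ m := by
    intro τ hτ
    rcases Nat.lt_or_ge τ n with h3 | h3
    · exact (hD τ h3).1
    · have h4 : τ = n := by omega
      rcases Nat.eq_zero_or_pos n with h5 | h5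
      · -- `n = 0`: impossible
        exfalso
        have h6 : Mn h 1 1 = 1 := (Mn_apply h 1 1 (le_refl 1)).1 (Sub.self _ _)
        rw [← hn, h5, h0] at h6
        simp at h6
      · have h6 := (hD (n - 1) (by omega)).2.1
        rw [Nat.sub_add_cancel h5] at h6
        rw [h4]; exact h6
  obtain ⟨τ, hτ, Q, hQ, hQ'⟩ := cut (fun τ u => D (min τ n) u ≠ 0)
    (fun τ τ' u hle hne h3 => by
      have := hmono2 (min τ n) (min τ' n) u (by omega) (by omega)
      exact hne (by omega))
    (fun τ u u' h3 h4 h5 h6 => by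
      simp only [ne_eq, not_not] at h3 h4 h5 h6
      rcases Nat.lt_or_ge τ n with h7 | h7
      · obtain ⟨_, _, v, hv⟩ := hD τ h7
        rw [min_eq_left (by omega)] at h3 h4
        rw [min_eq_left (by omega), hv, Finsupp.add_apply, Finsupp.single_apply] at h5 h6
        rw [h3] at h5
        rw [h4] at h6
        have h8 : v = u := by
          by_contra hne
          rw [if_neg hne] at h5; exact h5 rfl
        have h9 : v = u' := by
          by_contra hne
          rw [if_neg hne] at h6; exact h6 rfl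
        rw [← h8, ← h9]
      · rw [min_eq_right (by omega)] at h3 h5
        exact absurd h3 h5)
    n m 1 (le_refl 1)
    (fun u _ => by
      simp only [ne_eq, not_not]
      rw [min_eq_left (by omega), h0]; rfl)
    (fun u hu => by
      rw [min_self, hn, (Mn_apply h 1 u (le_refl 1)).1]
      · omega
      · obtain ⟨s, hs, hs'⟩ := hu
        exact ⟨s, by omega, hs'⟩)
  rw [min_eq_left hτ] at hQ'
  -- the elements of `Q` are edges of the boundary
  have hcard : Q.card ≤ wt (incT h) (D τ) := by
    unfold wt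
    have hEd : ∀ u ∈ Q, u ∈ Finset.Ico 2 (2 ^ (h + 1)) := by
      intro u hu
      obtain ⟨⟨s, hs, hs'⟩, hne, _⟩ := hQ' u hu
      have h3 : 1 ≤ u := (show Sub 1 (2 * m + 1) u from ⟨s, hs, hs'⟩).le
      rw [Finset.mem_Ico]
      refine ⟨by omega, ?_⟩
      have h4 : u < 2 ^ s * 2 := by
        have h5 : u / 2 ^ s < 2 := by omega
        exact (Nat.div_lt_iff_lt_mul (by positivity)).1 h5 |>.trans_eq (mul_comm _ _)
      calc u < 2 ^ s * 2 := h4
        _ = 2 ^ (s + 1) := by rw [pow_succ]
        _ ≤ 2 ^ (h + 1) := Nat.pow_le_pow_right (by norm_num) (by omega)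
    rw [← Finset.card_attach (s := Q)]
    refine Finset.card_le_card_of_injOn (fun u => ⟨u.1, hEd u.1 u.2⟩) ?_ ?_
    · intro u _
      refine Finset.mem_coe.2 (Finset.mem_filter.2 ⟨Finset.mem_univ _, ?_⟩)
      rw [bd_incT]
      obtain ⟨_, _, h3⟩ := hQ' u.1 u.2
      have h4 := hle1 τ hτ u.1
      have h5 := hle1 τ hτ (u.1 / 2)
      simp only
      intro h6
      apply h3
      rcases Nat.eq_zero_or_pos (D τ u.1) with h7 | h7 <;> rcases Nat.eq_zero_or_pos (D τ (u.1 / 2)) with h8 | h8
      · simp [h7, h8]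
      · exfalso
        have h9 : D τ (u.1 / 2) = 1 := by omega
        rw [h7, h9] at h6
        simp at h6
      · exfalso
        have h9 : D τ u.1 = 1 := by omega
        rw [h8, h9] at h6
        simp at h6
      · simp; omega
    · intro u _ u' _ h3
      simp only [Subtype.mk.injEq] at h3
      exact Subtype.ext h3
  have := hsmall τ hτ
  omega

end Pool.Agent.H20VP
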