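import Pool.Agent.H20VP.Defs

/-!
# Values at the nodes of a circuit, automorphisms
-/

set_option autoImplicit false

namespace Pool.Agent.H20VP

open MvPolynomial

variable {K X : Type}

namespace Circuit

theorem wf (C : Circuit K X) : WellFounded C.Edge := by
  have : Finite C.N := @Finite.of_fintype C.N C.fin
  have : Std.Irrefl (Relation.TransGen C.Edge) := ⟨fun n h => C.acyclic n h⟩
  have : IsTrans C.N (Relation.TransGen C.Edge) := ⟨fun _ _ _ h1 h2 => h1.trans h2⟩
  have h : WellFounded (Relation.TransGen C.Edge) := Finite.wellFounded_of_trans_of_irrefl _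
  exact Subrelation.wf (fun {a b} hab => Relation.TransGen.single hab) h

end Circuit

theorem Gate.value_congr {N : Type} [CommSemiring K] {φ ψ : N → MvPolynomial X K} (g : Gate K X N)
    (h : ∀ m ∈ g.preds, φ m = ψ m) : g.value φ = g.value ψ := by
  cases g with
  | var x => rfl
  | const c => rfl
  | add l =>
    simp only [Gate.value]
    congr 1
    exact List.map_congr_left h
  | mul a b =>
    simp only [Gate.value]
    rw [h a (by simp [Gate.preds]), h b (by simp [Gate.preds])]

/-- the values are equivariant -/
theorem value_aut [CommSemiring K] {C : Circuit K X} {π : X → X} {σ : Equiv.Perm C.N} (hσ : C.Aut π σ)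
    {φ : C.N → MvPolynomial X K} (hφ : ∀ n, φ n = (C.gate n).value φ) (n : C.N) :
    φ (σ n) = rename π (φ n) := by
  induction n using C.wf.induction with
  | _ n ih =>
    have h1 := hσ.2 n
    rw [hφ (σ n), hφ n]
    have ih' : ∀ m ∈ (C.gate n).preds, φ (σ m) = rename π (φ m) := ih
    revert h1 ih'
    generalize C.gate n = g
    generalize C.gate (σ n) = g'
    intro h1 ih'
    cases g with
    | var x =>
      simp only [Gate.Image] at h1
      subst h1
      simp [Gate.value]
    | const c =>
      simp only [Gate.Image] at h1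
      subst h1
      simp [Gate.value]
    | add l =>
      simp only [Gate.Image] at h1
      obtain ⟨l', rfl, hp⟩ := h1
      simp only [Gate.value]
      rw [(hp.map φ).sum_eq, map_list_sum, List.map_map, List.map_map]
      congr 1
      refine List.map_congr_left fun m hm => ?_
      exact ih' m hm
    | mul a b =>
      simp only [Gate.Image] at h1
      have ha := ih' a (by simp [Gate.preds])
      have hb := ih' b (by simp [Gate.preds])
      rcases h1 with rfl | rfl
      · simp only [Gate.value]
        rw [ha, hb, map_mul]
      · simp only [Gate.value]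
        rw [ha, hb, map_mul, mul_comm]

/-- automorphisms preserve edges -/
theorem edge_aut {C : Circuit K X} {π : X → X} {σ : Equiv.Perm C.N} (hσ : C.Aut π σ) {n m : C.N} :
    C.Edge (σ n) (σ m) ↔ C.Edge n m := by
  unfold Circuit.Edge
  have h1 := hσ.2 m
  revert h1
  generalize C.gate m = g
  generalize C.gate (σ m) = g'
  intro h1
  cases g with
  | var x =>
    simp only [Gate.Image] at h1
    subst h1
    simp [Gate.preds]
  | const c =>
    simp only [Gate.Image] at h1
    subst h1
    simp [Gate.preds]
  | add l =>
    simp only [Gate.Image] at h1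
    obtain ⟨l', rfl, hp⟩ := h1
    simp only [Gate.preds]
    rw [hp.mem_iff, List.mem_map]
    constructor
    · rintro ⟨a, ha, h⟩
      rw [σ.injective h] at ha
      exact ha
    · intro h
      exact ⟨n, h, rfl⟩
  | mul a b =>
    simp only [Gate.Image] at h1
    rcases h1 with rfl | rfl
    · simp [Gate.preds]
    · simp [Gate.preds, or_comm]

theorem below_aut {C : Circuit K X} {π : X → X} {σ : Equiv.Perm C.N} (hσ : C.Aut π σ) {n m : C.N}
    (h : C.Below n m) : C.Below (σ n) (σ m) := by
  unfold Circuit.Below at *
  induction h with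
  | refl => exact Relation.ReflTransGen.refl
  | tail _ h ih => exact ih.tail ((edge_aut hσ).2 h)

/-- composition -/
theorem aut_mul {C : Circuit K X} {π π' : X → X} {σ σ' : Equiv.Perm C.N} (h : C.Aut π σ) (h' : C.Aut π' σ') :
    C.Aut (π ∘ π') (σ * σ') := by
  refine ⟨?_, fun n => ?_⟩
  · rw [Equiv.Perm.mul_apply, h'.1, h.1]
  · have h1 := h'.2 n
    have h2 := h.2 (σ' n)
    rw [Equiv.Perm.mul_apply]
    revert h1 h2
    generalize C.gate n = g
    generalize C.gate (σ' n) = g'
    generalize C.gate (σ (σ' n)) = g''
    intro h1 h2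
    cases g with
    | var x =>
      simp only [Gate.Image] at h1
      subst h1
      simpa [Gate.Image] using h2
    | const c =>
      simp only [Gate.Image] at h1
      subst h1
      simpa [Gate.Image] using h2
    | add l =>
      simp only [Gate.Image] at h1
      obtain ⟨l', rfl, hp⟩ := h1
      simp only [Gate.Image] at h2
      obtain ⟨l'', rfl, hp'⟩ := h2
      refine ⟨l'', rfl, hp'.trans ?_⟩
      have := hp.map σ
      rw [List.map_map] at this
      exact this
    | mul a b =>
      simp only [Gate.Image] at h1
      rcases h1 with rfl | rfl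
      · simpa [Gate.Image] using h2
      · simp only [Gate.Image] at h2
        rcases h2 with rfl | rfl
        · right; rfl
        · left; rfl

/-- inverse -/
theorem aut_inv {C : Circuit K X} {π π' : X → X} {σ : Equiv.Perm C.N} (h : C.Aut π σ) (hπ : ∀ x, π' (π x) = x) :
    C.Aut π' σ⁻¹ := by
  refine ⟨?_, fun n => ?_⟩
  · rw [Equiv.Perm.inv_eq_iff_eq]; exact h.1.symm
  · obtain ⟨m, rfl⟩ := σ.surjective n
    have h1 := h.2 m
    rw [show (σ⁻¹ : Equiv.Perm C.N) (σ m) = m by simp]
    revert h1
    generalize C.gate m = g
    generalize C.gate (σ m) = g'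
    intro h1
    cases g with
    | var x =>
      simp only [Gate.Image] at h1
      subst h1
      simp [Gate.Image, hπ]
    | const c =>
      simp only [Gate.Image] at h1
      subst h1
      simp [Gate.Image]
    | add l =>
      simp only [Gate.Image] at h1
      obtain ⟨l', rfl, hp⟩ := h1
      refine ⟨l, rfl, ?_⟩
      have h2 := hp.map (σ⁻¹ : Equiv.Perm C.N)
      rw [List.map_map] at h2
      have h3 : (List.map ((σ⁻¹ : Equiv.Perm C.N) ∘ σ) l) = l := by
        conv_rhs => rw [← List.map_id l]
        refine List.map_congr_left fun a _ => ?_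
        simp
      rw [h3] at h2
      exact h2.symm
    | mul a b =>
      simp only [Gate.Image] at h1
      rcases h1 with rfl | rfl
      · left; simp
      · right; simp

/-! ### the private sub-circuits -/

theorem below_or {C : Circuit K X} {a b g : C.N} (h : C.Cut b a g) (hbg : C.Edge b g) {n d : C.N}
    (hn : C.Below n b) (hd : C.Below n d) : C.Below d b ∨ C.Below g d := by
  unfold Circuit.Below at hd
  induction hd with
  | refl => exact Or.inl hn
  | @tail d d' _ hdd' ih =>
    rcases ih with ih | ih
    · by_cases h1 : C.Below d' b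
      · exact Or.inl h1
      · obtain ⟨rfl, rfl⟩ := h.2 d d' ih h1 hdd'
        exact Or.inr Relation.ReflTransGen.refl
    · exact Or.inr (ih.tail hdd')

theorem not_trans_aut {C : Circuit K X} {π : X → X} {σ : Equiv.Perm C.N} (hσ : C.Aut π σ) {b : C.N} :
    ¬ Relation.TransGen C.Edge b (σ b) := by
  intro h
  have : Finite C.N := @Finite.of_fintype C.N C.fin
  have h1 : ∀ k : ℕ, Relation.TransGen C.Edge ((σ ^ k) b) ((σ ^ (k + 1)) b) := by
    intro k
    induction k with
    | zero => simpa using h
    | succ k ih =>
      have h2 : ∀ {n m : C.N}, Relation.TransGen C.Edge n m → Relation.TransGen C.Edge (σ n) (σ m) := by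
        intro n m hnm
        induction hnm with
        | single h => exact Relation.TransGen.single ((edge_aut hσ).2 h)
        | tail _ h ih => exact ih.tail ((edge_aut hσ).2 h)
      have h3 := h2 ih
      rw [← Equiv.Perm.mul_apply, ← Equiv.Perm.mul_apply, ← pow_succ', ← pow_succ'] at h3
      exact h3
  have h2 : ∀ k : ℕ, Relation.TransGen C.Edge b ((σ ^ (k + 1)) b) := by
    intro k
    induction k with
    | zero => simpa using h
    | succ k ih => exact ih.trans (h1 (k + 1))
  obtain ⟨k, hk, hk2⟩ := (isOfFinOrder_of_finite σ).exists_pow_eq_one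
  have h3 := h2 (k - 1)
  rw [Nat.sub_add_cancel hk, hk2] at h3
  exact C.acyclic b h3

/-- an automorphism which fixes a node of the private sub-circuit of `b` fixes `b` and `g` -/
theorem fix_of_cut {C : Circuit K X} {π : X → X} {σ : Equiv.Perm C.N} (hσ : C.Aut π σ) (hσ' : C.Aut π σ⁻¹)
    {a b g : C.N} (h : C.Cut b a g) (hbg : C.Edge b g) {n : C.N} (hn : C.Below n b) (hfix : σ n = n) :
    σ b = b ∧ σ g = g := by
  -- comparable nodes in one orbit are equal
  have hkey : ∀ {τ : Equiv.Perm C.N}, C.Aut π τ → τ n = n → C.Below (τ b) b := by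
    intro τ hτ hτn
    have h1 := below_aut hτ hn
    rw [hτn] at h1
    rcases below_or h hbg hn h1 with h2 | h2
    · exact h2
    · exfalso
      have h3 : Relation.TransGen C.Edge b (τ b) := Relation.TransGen.head' hbg h2
      exact not_trans_aut hτ h3
  have hb : σ b = b := by
    have h1 := hkey hσ hfix
    rcases Relation.reflTransGen_iff_eq_or_transGen.1 h1 with h2 | h2
    · exact h2.symm
    · exfalso
      -- apply the inverse
      have h3 : Relation.TransGen C.Edge ((σ⁻¹ : Equiv.Perm C.N) (σ b)) ((σ⁻¹ : Equiv.Perm C.N) b) := by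
        have h4 : ∀ {n m : C.N}, Relation.TransGen C.Edge n m →
            Relation.TransGen C.Edge ((σ⁻¹ : Equiv.Perm C.N) n) ((σ⁻¹ : Equiv.Perm C.N) m) := by
          intro n m hnm
          induction hnm with
          | single h => exact Relation.TransGen.single ((edge_aut hσ').2 h)
          | tail _ h ih => exact ih.tail ((edge_aut hσ').2 h)
        exact h4 h2
      rw [show (σ⁻¹ : Equiv.Perm C.N) (σ b) = b by simp] at h3
      exact not_trans_aut hσ' h3
  refine ⟨hb, ?_⟩
  have h1 : C.Edge b (σ g) := by
    have := (edge_aut hσ).2 hbg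
    rwa [hb] at this
  by_cases h2 : C.Below (σ g) b
  · exfalso
    exact C.acyclic b (Relation.TransGen.head' h1 h2)
  · exact (h.2 b (σ g) Relation.ReflTransGen.refl h2 h1).2

end Pool.Agent.H20VP
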